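import Pool.Agent.H914R2.HodgeDefs

/-!
# The standard conjecture of Hodge type for fourfolds, blow-ups, projective bundles: definitions
-/

set_option autoImplicit false

open CategoryTheory AlgebraicGeometry

universe u v

namespace Pool.Agent.Q70.FF

open Pool.Agent.H914 Pool.Agent.H914.VarClass Pool.Agent.H914.VarClass.Obj

variable {k : Type u} [Field k] {𝒱 : VarClass k} {ops : CycleOps 𝒱}

/-- The intersection number of two cycles (of complementary codimensions). -/
noncomputable def inter (ops : CycleOps 𝒱) {X : 𝒱.Obj} (z w : X.Cycles) : ℚ :=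
  X.V.degCycle (ops.mul z w)

/-- The cycle `z` of codimension `p` on `X` is numerically trivial. -/
def NumTrivial (ops : CycleOps 𝒱) (X : 𝒱.Obj) (p : ℕ) (z : X.Cycles) : Prop :=
  ∀ (q : ℕ) (w : X.Cycles), p + q = X.dim → X.IsCyc q w → inter ops z w = 0

/-- Numerical and homological equivalence coincide for the cycles of codimension `p` on `X`. -/
def HomEqNumIn (W : WeilCohomology.{u, v} ops) (X : 𝒱.Obj) (p : ℕ) : Prop :=
  ∀ z, X.IsCyc p z → NumTrivial ops X p z → W.cl X z = 0

/-- The divisor `D` on the fourfold `X` has the properties of an ample divisor which are given by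
the Hodge index theorem: `D ^ 4 > 0`, and `D ^ 2 z ^ 2 < 0` for every divisor `z` with
`D ^ 3 z = 0` which is not numerically trivial. -/
structure IsPolarization (ops : CycleOps 𝒱) (X : 𝒱.Obj) (D : X.Cycles) : Prop where
  dim : X.dim = 4
  cyc : X.IsCyc 1 D
  pos : 0 < inter ops (ops.mul D D) (ops.mul D D)
  neg : ∀ z, X.IsCyc 1 z → inter ops (ops.mul D D) (ops.mul D z) = 0 →
    ¬ NumTrivial ops X 1 z → inter ops (ops.mul D z) (ops.mul D z) < 0

/-- The divisor `A` on the surface `Z` has the properties of an ample divisor which are given by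
the Hodge index theorem. -/
structure IsSurfacePolarization (ops : CycleOps 𝒱) (Z : 𝒱.Obj) (A : Z.Cycles) : Prop where
  dim : Z.dim = 2
  cyc : Z.IsCyc 1 A
  pos : 0 < inter ops A A
  neg : ∀ z, Z.IsCyc 1 z → inter ops A z = 0 → ¬ NumTrivial ops Z 1 z → inter ops z z < 0

/-- **The standard conjecture of Hodge type for the fourfold `X` and the divisor `D` in codimension
two**: `z ^ 2 > 0` for every algebraic cycle `z` of codimension two whose class is primitive
(`D z = 0` in cohomology) and not zero. -/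
def HodgeHom (W : WeilCohomology.{u, v} ops) (X : 𝒱.Obj) (D : X.Cycles) : Prop :=
  ∀ z, X.IsCyc 2 z → W.cl X (ops.mul D z) = 0 → W.cl X z ≠ 0 → 0 < inter ops z z

/-- **The numerical standard conjecture of Hodge type for the fourfold `X` and the divisor `D` in
codimension two**: `z ^ 2 > 0` for every algebraic cycle `z` of codimension two such that `D z` is
numerically trivial and `z` is not. -/
def HodgeNum (ops : CycleOps 𝒱) (X : 𝒱.Obj) (D : X.Cycles) : Prop :=
  ∀ z, X.IsCyc 2 z → NumTrivial ops X 3 (ops.mul D z) → ¬ NumTrivial ops X 2 z →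
    0 < inter ops z z

/-- The properties of the blow-up `π : X' → X` of a variety `X` in a smooth subvariety
`i : Z → X` of codimension at least two, with exceptional divisor `j : E → X'`, projection
`g : E → Z` and tautological divisor `h` on the projective bundle `E` (the opposite of the normal
bundle of `E`): `π_* 1 = 1`, the self-intersection formula `j^* j_* a = - h a`, the vanishing of
`g_* h ^ s` for `s < r - 1` and `g_* h ^ (r - 1) = 1`, where `r` is the codimension of `Z`, and the
generation of the algebraic classes of codimension one and two on `X'` by those of `X` and of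
`Z`. -/
structure IsBlowup (W : WeilCohomology.{u, v} ops) {X X' Z E : 𝒱.Obj} (π : X' ⟶ X) (i : Z ⟶ X)
    (j : E ⟶ X') (g : E ⟶ Z) (h : E.Cycles) : Prop where
  comm : j ≫ π = g ≫ i
  dim : X'.dim = X.dim
  dimE : E.dim + 1 = X.dim
  codim : Z.dim + 2 ≤ X.dim
  hcyc : E.IsCyc 1 h
  birat : W.push π 1 = 1
  self : ∀ a, W.map j (W.push j a) = - (W.cl E h * a)
  bundle : ∀ s, s + 1 + Z.dim ≤ X.dim →
    W.push g (W.cl E h ^ s) = if s + 1 + Z.dim = X.dim then 1 else 0
  gen1 : ∀ z, X'.IsCyc 1 z → ∃ x, X.IsCyc 1 x ∧ ∃ a : ℚ,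
    W.cl X' z = W.map π (W.cl X x) + (a : W.K) • W.push j 1
  gen2 : ∀ z, X'.IsCyc 2 z → ∃ x, X.IsCyc 2 x ∧ ∃ y, Z.IsCyc 1 y ∧ ∃ a : ℚ,
    (Z.dim + 2 = X.dim → a = 0) ∧ W.cl X' z =
      W.map π (W.cl X x) + W.push j (W.map g (W.cl Z y)) + (a : W.K) • W.push j (W.cl E h)

/-- The properties of a projective line bundle `f : X → B`: a divisor `h` with `f_* h = 1`,
`f_* 1 = 0`, and the generation of the algebraic classes of codimension one and two on `X` by those
of `B` and `h`. -/
structure IsLineBundle (W : WeilCohomology.{u, v} ops) {X B : 𝒱.Obj} (f : X ⟶ B)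
    (h : X.Cycles) : Prop where
  dim : X.dim = B.dim + 1
  hcyc : X.IsCyc 1 h
  push_one : W.push f 1 = 0
  push_h : W.push f (W.cl X h) = 1
  gen1 : ∀ z, X.IsCyc 1 z → ∃ x, B.IsCyc 1 x ∧ ∃ a : ℚ,
    W.cl X z = W.map f (W.cl B x) + (a : W.K) • W.cl X h
  gen2 : ∀ z, X.IsCyc 2 z → ∃ x, B.IsCyc 2 x ∧ ∃ y, B.IsCyc 1 y ∧
    W.cl X z = W.map f (W.cl B x) + W.cl X h * W.map f (W.cl B y)

/-- A fibration `f : X → T` in curves: `dim X = dim T + 1`, `f_* 1 = 0`, and some divisor has
nonzero degree on the fibres. -/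
structure IsFibration (W : WeilCohomology.{u, v} ops) {X T : 𝒱.Obj} (f : X ⟶ T) : Prop where
  dim : X.dim = T.dim + 1
  push_one : W.push f 1 = 0
  fibre : ∃ (h : X.Cycles) (a : ℚ), X.IsCyc 1 h ∧ a ≠ 0 ∧ W.push f (W.cl X h) = (a : W.K) • 1

/-- A surjective morphism of degree `d` of varieties of the same dimension. -/
structure IsCover (W : WeilCohomology.{u, v} ops) {Y X : 𝒱.Obj} (f : Y ⟶ X) (d : ℚ) :
    Prop where
  dim : Y.dim = X.dim
  pos : 0 < d
  push_one : W.push f 1 = (d : W.K) • 1

end Pool.Agent.Q70.FF
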