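import Pool.Agent.Q70.FF.Core
import Pool.Agent.Q70.FF.Defs

/-!
# The rational subspaces of the classes of cycles, and the intersection form
-/

set_option autoImplicit false

open CategoryTheory AlgebraicGeometry Module

universe u v

namespace Pool.Agent.Q70.FF

open Pool.Agent.H914 Pool.Agent.H914.VarClass Pool.Agent.H914.VarClass.Obj

variable {k : Type u} [Field k] {𝒱 : VarClass k} {ops : CycleOps 𝒱}
  (W : WeilCohomology.{u, v} ops)

/-- The cohomology as an algebra over the rational numbers. -/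
noncomputable instance ratAlg (X : 𝒱.Obj) : Algebra ℚ (W.H X) :=
  Algebra.compHom (W.H X) (algebraMap ℚ W.K)

lemma rat_smul (X : 𝒱.Obj) (q : ℚ) (a : W.H X) : q • a = (q : W.K) • a := by
  have h : q • a = (algebraMap ℚ W.K q) • a := rfl
  rw [h]
  simp

/-- A rational functional on the coefficient field with value one at one. -/
lemma exists_delta : ∃ δ : W.K →ₗ[ℚ] ℚ, ∀ q : ℚ, δ (q : W.K) = q := by
  have hinj : LinearMap.ker (LinearMap.toSpanSingleton ℚ W.K 1) = ⊥ := by
    rw [LinearMap.ker_eq_bot']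
    intro m hm
    rw [LinearMap.toSpanSingleton_apply] at hm
    exact (smul_eq_zero.1 hm).resolve_right one_ne_zero
  obtain ⟨δ, hδ⟩ := LinearMap.exists_leftInverse_of_injective _ hinj
  refine ⟨δ, fun q => ?_⟩
  have h2 := LinearMap.congr_fun hδ q
  rw [LinearMap.comp_apply, LinearMap.toSpanSingleton_apply, LinearMap.id_apply,
    Rat.smul_one_eq_cast] at h2
  exact h2

/-- The chosen functional. -/
noncomputable def del : W.K →ₗ[ℚ] ℚ := Classical.choose (exists_delta W)

lemma del_rat (q : ℚ) : del W (q : W.K) = q := Classical.choose_spec (exists_delta W) q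

/-- The classes of the cycles of codimension `p`. -/
noncomputable def Cl (X : 𝒱.Obj) (p : ℕ) : Submodule ℚ (W.H X) where
  carrier := {a | ∃ z, X.IsCyc p z ∧ W.cl X z = a}
  zero_mem' := ⟨0, SmVar.IsCyc.zero _ _, map_zero _⟩
  add_mem' := by
    rintro _ _ ⟨z, hz, rfl⟩ ⟨w, hw, rfl⟩
    exact ⟨z + w, hz.add hw, map_add _ _ _⟩
  smul_mem' := by
    rintro q _ ⟨z, hz, rfl⟩
    exact ⟨q • z, hz.smul q, map_rat_smul (W.cl X) q z⟩

variable {W}

lemma cl_mem_Cl {X : 𝒱.Obj} {p : ℕ} {z : X.Cycles} (hz : X.IsCyc p z) : W.cl X z ∈ Cl W X p :=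
  ⟨z, hz, rfl⟩

lemma Cl_mul {X : 𝒱.Obj} {p q : ℕ} {a b : W.H X} (ha : a ∈ Cl W X p) (hb : b ∈ Cl W X q) :
    a * b ∈ Cl W X (p + q) := by
  obtain ⟨z, hz, rfl⟩ := ha
  obtain ⟨w, hw, rfl⟩ := hb
  exact ⟨ops.mul z w, ops.mul_mem hz hw, W.cl_mul z w⟩

lemma Cl_map {X Y : 𝒱.Obj} (f : X ⟶ Y) {p : ℕ} {a : W.H Y} (ha : a ∈ Cl W Y p) :
    W.map f a ∈ Cl W X p := by
  obtain ⟨z, hz, rfl⟩ := ha
  exact ⟨ops.pull f z, ops.pull_mem f hz, W.cl_pull f z⟩

lemma Cl_push {X Y : 𝒱.Obj} (f : X ⟶ Y) {p q : ℕ} {a : W.H X} (ha : a ∈ Cl W X p)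
    (h : p + Y.dim = q + X.dim) : W.push f a ∈ Cl W Y q := by
  obtain ⟨z, hz, rfl⟩ := ha
  exact ⟨ops.push f z, ops.push_mem f hz h, W.cl_push f z⟩

lemma Cl_one (X : 𝒱.Obj) : (1 : W.H X) ∈ Cl W X 0 :=
  ⟨X.V.fundCycle, SmVar.fundCycle_mem _, W.cl_fund X⟩

lemma Cl_comm {X : 𝒱.Obj} {p q : ℕ} {a b : W.H X} (ha : a ∈ Cl W X p) (hb : b ∈ Cl W X q) :
    a * b = b * a := by
  obtain ⟨z, hz, rfl⟩ := ha
  obtain ⟨w, hw, rfl⟩ := hb
  rw [W.comm (W.cl_mem hz) (W.cl_mem hw), show 2 * p * (2 * q) = 2 * (p * (2 * q)) by ring,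
    pow_mul]
  simp

variable (W)

/-- The form `δ (tr (a b))`. -/
noncomputable def B (X : 𝒱.Obj) : W.H X →ₗ[ℚ] W.H X →ₗ[ℚ] ℚ where
  toFun a :=
    { toFun := fun b => del W (W.tr X (a * b))
      map_add' := fun x y => by rw [mul_add, map_add, map_add]
      map_smul' := fun q x => by
        rw [rat_smul, mul_smul_comm, (W.tr X).map_smul, RingHom.id_apply, ← (del W).map_smul,
          Rat.smul_def, smul_eq_mul] }
  map_add' x y := by
    ext b
    change del W _ = del W _ + del W _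
    rw [add_mul, map_add, map_add]
  map_smul' q x := by
    ext b
    change del W _ = q • del W _
    rw [rat_smul, smul_mul_assoc, (W.tr X).map_smul, ← (del W).map_smul, Rat.smul_def, smul_eq_mul]

variable {W}

lemma B_apply {X : 𝒱.Obj} (a b : W.H X) : B W X a b = del W (W.tr X (a * b)) := rfl

lemma tr_rat {X : 𝒱.Obj} {a : W.H X} (ha : a ∈ Cl W X X.dim) :
    W.tr X a = ((del W (W.tr X a) : ℚ) : W.K) := by
  obtain ⟨z, hz, rfl⟩ := ha
  rw [W.tr_cl hz, del_rat]

lemma B_cl {X : 𝒱.Obj} {p q : ℕ} {z w : X.Cycles} (hz : X.IsCyc p z) (hw : X.IsCyc q w)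
    (h : p + q = X.dim) : B W X (W.cl X z) (W.cl X w) = inter ops z w := by
  rw [B_apply, ← W.cl_mul, W.tr_cl (h ▸ ops.mul_mem hz hw), del_rat]
  rfl

lemma B_symm {X : 𝒱.Obj} {p q : ℕ} {a b : W.H X} (ha : a ∈ Cl W X p) (hb : b ∈ Cl W X q) :
    B W X a b = B W X b a := by
  rw [B_apply, B_apply, Cl_comm ha hb]

lemma B_assoc {X : 𝒱.Obj} (a b c : W.H X) : B W X (a * b) c = B W X a (b * c) := by
  rw [B_apply, B_apply, mul_assoc]

/-- Numerically trivial cycles in terms of classes. -/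
lemma numTrivial_iff {X : 𝒱.Obj} {p q : ℕ} (h : p + q = X.dim) {z : X.Cycles}
    (hz : X.IsCyc p z) : NumTrivial ops X p z ↔ ∀ a ∈ Cl W X q, B W X (W.cl X z) a = 0 := by
  constructor
  · rintro h1 _ ⟨w, hw, rfl⟩
    rw [B_cl hz hw h]
    exact h1 q w h hw
  · intro h1 q' w hq hw
    have : q' = q := by omega
    subst this
    rw [← B_cl (W := W) hz hw h]
    exact h1 _ (cl_mem_Cl hw)

variable (W)

/-- The numerically trivial classes of codimension `p` (`p + q = dim X`), as a subspace of the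
space of classes of codimension `p`. -/
noncomputable def numSub (X : 𝒱.Obj) (p q : ℕ) : Submodule ℚ (Cl W X p) where
  carrier := {a | ∀ c ∈ Cl W X q, B W X (a : W.H X) c = 0}
  zero_mem' := by
    intro c _
    simp
  add_mem' := by
    intro a b ha hb c hc
    rw [Submodule.coe_add, map_add, LinearMap.add_apply, ha c hc, hb c hc, add_zero]
  smul_mem' := by
    intro t a ha c hc
    rw [Submodule.coe_smul, map_smul, LinearMap.smul_apply, ha c hc, smul_zero]

variable {W}

lemma mem_numSub {X : 𝒱.Obj} {p q : ℕ} {a : Cl W X p} :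
    a ∈ numSub W X p q ↔ ∀ c ∈ Cl W X q, B W X (a : W.H X) c = 0 := Iff.rfl

/-- The space of cycles modulo numerical equivalence. -/
abbrev Num (W : WeilCohomology.{u, v} ops) (X : 𝒱.Obj) (p q : ℕ) : Type v :=
  Cl W X p ⧸ numSub W X p q

/-- It is finite-dimensional. -/
theorem num_finite (X : 𝒱.Obj) (p q : ℕ) (h : p + q = X.dim) : Module.Finite ℚ (Num W X p q) := by
  classical
  -- a finite set of algebraic classes which spans all of them over `K`
  obtain ⟨s, hs, hspan, hli⟩ := exists_linearIndependent W.K ((Cl W X p : Set (W.H X)))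
  have hfin : s.Finite := by
    have := hli.setFinite
    exact this
  have key : (⊤ : Submodule ℚ (Num W X p q)) ≤
      Submodule.span ℚ (Set.range fun x : s => (numSub W X p q).mkQ ⟨x.1, hs x.2⟩) := by
    intro y _
    obtain ⟨⟨a, ha⟩, rfl⟩ := (numSub W X p q).mkQ_surjective y
    have h1 : a ∈ Submodule.span W.K s := by
      rw [hspan]
      exact Submodule.subset_span ha
    have : Fintype s := hfin.fintype
    rw [← Subtype.range_coe (s := s), Submodule.mem_span_range_iff_exists_fun] at h1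
    obtain ⟨c, hc⟩ := h1
    have h2 : (numSub W X p q).mkQ ⟨a, ha⟩ =
        ∑ x : s, (del W (c x)) • (numSub W X p q).mkQ ⟨x.1, hs x.2⟩ := by
      rw [← sub_eq_zero]
      have h3 : (numSub W X p q).mkQ ⟨a, ha⟩ -
          ∑ x : s, (del W (c x)) • (numSub W X p q).mkQ ⟨x.1, hs x.2⟩ =
          (numSub W X p q).mkQ (⟨a, ha⟩ - ∑ x : s, (del W (c x)) • ⟨x.1, hs x.2⟩) := by
        rw [map_sub, map_sum]
        simp only [map_smul]
      rw [h3, Submodule.mkQ_apply, Submodule.Quotient.mk_eq_zero, mem_numSub]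
      intro w hw
      have hrat : ∀ b ∈ Cl W X p, W.tr X (b * w) = ((del W (W.tr X (b * w)) : ℚ) : W.K) :=
        fun b hb => tr_rat (h ▸ Cl_mul hb hw)
      have h4 : W.tr X (a * w) = ∑ x : s, c x * W.tr X (x.1 * w) := by
        rw [← hc, Finset.sum_mul, map_sum]
        refine Finset.sum_congr rfl fun x _ => ?_
        rw [smul_mul_assoc, map_smul, smul_eq_mul]
      have h5 : del W (W.tr X (a * w)) = ∑ x : s, del W (c x) * del W (W.tr X (x.1 * w)) := by
        rw [h4, map_sum]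
        refine Finset.sum_congr rfl fun x _ => ?_
        rw [hrat x.1 (hs x.2), del_rat, mul_comm (c x), ← Rat.smul_def, map_smul, smul_eq_mul,
          mul_comm]
      rw [Submodule.coe_sub, map_sub, LinearMap.sub_apply, B_apply]
      simp only [Submodule.coe_sum, Submodule.coe_smul, map_sum, map_smul,
        LinearMap.sum_apply, LinearMap.smul_apply, B_apply, smul_eq_mul]
      rw [h5, sub_self]
    rw [h2]
    refine Submodule.sum_mem _ fun x _ => Submodule.smul_mem _ _ (Submodule.subset_span ⟨x, rfl⟩)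
  have : Finite s := hfin
  exact ⟨⟨(Set.finite_range _).toFinset, by
    rw [Set.Finite.coe_toFinset]
    exact top_le_iff.1 key⟩⟩

end Pool.Agent.Q70.FF
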