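import Pool.Agent.Q70.FF.Four

/-!
# Blow-ups
-/

set_option autoImplicit false
set_option linter.unusedSectionVars false

open CategoryTheory AlgebraicGeometry Module

universe u v

namespace Pool.Agent.Q70.FF

open Pool.Agent.H914 Pool.Agent.H914.VarClass Pool.Agent.H914.VarClass.Obj

variable {k : Type u} [Field k] {𝒱 : VarClass k} {ops : CycleOps 𝒱}
  {W : WeilCohomology.{u, v} ops}

/-- Pull-back of the classes of cycles. -/
noncomputable def pullL {X Y : 𝒱.Obj} (f : X ⟶ Y) (p : ℕ) : Cl W Y p →ₗ[ℚ] Cl W X p where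
  toFun a := ⟨W.map f a, Cl_map f a.2⟩
  map_add' a b := Subtype.ext (by
    change W.map f ((a + b : Cl W Y p) : W.H Y) = W.map f a + W.map f b
    rw [Submodule.coe_add, map_add])
  map_smul' q a := Subtype.ext (by
    change W.map f ((q • a : Cl W Y p) : W.H Y) = q • W.map f a
    rw [Submodule.coe_smul, rat_smul, rat_smul, map_smul])

/-- Push-forward of the classes of cycles. -/
noncomputable def pushL {X Y : 𝒱.Obj} (f : X ⟶ Y) {p q : ℕ} (h : p + Y.dim = q + X.dim) :
    Cl W X p →ₗ[ℚ] Cl W Y q where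
  toFun a := ⟨W.push f a, Cl_push f a.2 h⟩
  map_add' a b := Subtype.ext (by
    change W.push f ((a + b : Cl W X p) : W.H X) = W.push f a + W.push f b
    rw [Submodule.coe_add, map_add])
  map_smul' q a := Subtype.ext (by
    change W.push f ((q • a : Cl W X p) : W.H X) = q • W.push f a
    rw [Submodule.coe_smul, rat_smul, rat_smul, map_smul])

@[simp] lemma pullL_coe {X Y : 𝒱.Obj} (f : X ⟶ Y) (p : ℕ) (a : Cl W Y p) :
    (pullL f p a : W.H X) = W.map f a := rfl

@[simp] lemma pushL_coe {X Y : 𝒱.Obj} (f : X ⟶ Y) {p q : ℕ} (h : p + Y.dim = q + X.dim)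
    (a : Cl W X p) : (pushL f h a : W.H Y) = W.push f a := rfl

/-- The projection formula for the forms. -/
lemma B_push {X Y : 𝒱.Obj} (f : X ⟶ Y) (a : W.H X) (b : W.H Y) :
    B W Y (W.push f a) b = B W X a (W.map f b) := by
  rw [B_apply, B_apply, W.tr_push]

lemma B_pull {X Y : 𝒱.Obj} (f : X ⟶ Y) {p q : ℕ} {a : W.H Y} {b : W.H X} (ha : a ∈ Cl W Y p)
    (hb : b ∈ Cl W X q) {r : ℕ} (h : q + Y.dim = r + X.dim) :
    B W X (W.map f a) b = B W Y a (W.push f b) := by
  rw [B_symm (Cl_map f ha) hb, ← B_push, B_symm (Cl_push f hb h) ha]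

section

variable {X X' Z E : 𝒱.Obj} {π : X' ⟶ X} {i : Z ⟶ X} {j : E ⟶ X'} {g : E ⟶ Z} {h : E.Cycles}
  (hB : IsBlowup W π i j g h)

include hB

lemma blow_pull_pull (a b : W.H X) : B W X' (W.map π a) (W.map π b) = B W X a b := by
  have h1 : B W X' (W.map π a) (W.map π b) = B W X' 1 (W.map π (a * b)) := by
    rw [map_mul, ← B_assoc, one_mul]
  rw [h1, ← B_push, hB.birat, ← B_assoc, one_mul]

lemma blow_map_j (a : W.H X) : W.map j (W.map π a) = W.map g (W.map i a) := by
  rw [← W.map_comp, ← W.map_comp, hB.comm]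

lemma blow_hpow (s : ℕ) : W.cl E h ^ s ∈ Cl W E s := by
  induction s with
  | zero =>
    rw [pow_zero]
    exact Cl_one E
  | succ n ih =>
    rw [pow_succ]
    exact Cl_mul ih (cl_mem_Cl hB.hcyc)

/-- The exceptional classes are orthogonal to the classes from `X` below the top power. -/
lemma blow_exc_pull {s : ℕ} (hs : s + 1 + Z.dim < X.dim) (y : W.H Z) (x : W.H X) :
    B W X' (W.push j (W.cl E h ^ s * W.map g y)) (W.map π x) = 0 := by
  rw [B_push, blow_map_j hB, B_assoc, ← map_mul, ← B_push, hB.bundle s hs.le, if_neg hs.ne,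
    map_zero, LinearMap.zero_apply]

/-- The product of two exceptional classes. -/
lemma blow_exc_exc {s t : ℕ} {p : ℕ} {y : W.H Z} (hy : y ∈ Cl W Z p) (y' : W.H Z) :
    B W X' (W.push j (W.cl E h ^ s * W.map g y)) (W.push j (W.cl E h ^ t * W.map g y')) =
      - B W E (W.cl E h ^ (s + t + 1)) (W.map g (y * y')) := by
  have h1 : W.map g y * W.cl E h ^ (t + 1) = W.cl E h ^ (t + 1) * W.map g y :=
    Cl_comm (Cl_map g hy) (blow_hpow hB (t + 1))
  rw [B_push, hB.self, map_neg, B_apply, B_apply]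
  congr 3
  calc W.cl E h ^ s * W.map g y * (W.cl E h * (W.cl E h ^ t * W.map g y'))
      = W.cl E h ^ s * (W.map g y * W.cl E h ^ (t + 1)) * W.map g y' := by
        rw [pow_succ' _ t]
        simp only [mul_assoc]
    _ = W.cl E h ^ (s + t + 1) * W.map g (y * y') := by
        have e : W.cl E h ^ (s + t + 1) = W.cl E h ^ s * W.cl E h ^ (t + 1) := by
          rw [add_assoc, pow_add]
        rw [h1, map_mul, e]
        simp only [mul_assoc]

/-- The product of two exceptional classes whose powers of `h` are exactly the top power. -/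
lemma blow_exc_top {s t : ℕ} (hst : s + t + 2 + Z.dim = X.dim) {p : ℕ} {y : W.H Z}
    (hy : y ∈ Cl W Z p) (y' : W.H Z) :
    B W X' (W.push j (W.cl E h ^ s * W.map g y)) (W.push j (W.cl E h ^ t * W.map g y')) =
      - B W Z y y' := by
  rw [blow_exc_exc hB hy, ← B_push, hB.bundle _ (by omega), if_pos (by omega), ← B_assoc,
    one_mul]

/-- The product of two exceptional classes below the top power. -/
lemma blow_exc_low {s t : ℕ} (hst : s + t + 2 + Z.dim < X.dim) {p : ℕ} {y : W.H Z}
    (hy : y ∈ Cl W Z p) (y' : W.H Z) :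
    B W X' (W.push j (W.cl E h ^ s * W.map g y)) (W.push j (W.cl E h ^ t * W.map g y')) = 0 := by
  rw [blow_exc_exc hB hy, ← B_push, hB.bundle _ (by omega), if_neg (by omega), map_zero,
    LinearMap.zero_apply, neg_zero]

/-- The class of the exceptional divisor. -/
lemma blow_E_mem : W.push j 1 ∈ Cl W X' 1 :=
  Cl_push j (Cl_one E) (by rw [hB.dim, ← hB.dimE]; omega)

/-- **The Picard number increases by one.** -/
theorem blow_rank (hdim : X.dim = 4) (hpt : ∃ y, Z.IsCyc Z.dim y ∧ Z.V.degCycle y ≠ 0) :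
    finrank ℚ (Num W X' 1 3) = finrank ℚ (Num W X 1 3) + 1 := by
  have hdim' : X'.dim = 4 := by rw [hB.dim, hdim]
  have hcod := hB.codim
  have hfin : Module.Finite ℚ (Num W X 1 3) := num_finite X 1 3 (by rw [hdim])
  have hnum : ∀ x : Cl W X 1, x ∈ numSub W X 1 3 → pullL π 1 x ∈ numSub W X' 1 3 := by
    intro x hx c hc
    rw [pullL_coe, B_pull π x.2 hc (show 3 + X.dim = 3 + X'.dim by rw [hdim, hdim'])]
    exact hx _ (Cl_push π hc (by rw [hdim, hdim']))
  let A : Num W X 1 3 →ₗ[ℚ] Num W X' 1 3 :=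
    (numSub W X 1 3).mapQ (numSub W X' 1 3) (pullL π 1) (fun x hx => hnum x hx)
  let eE : Num W X' 1 3 := (numSub W X' 1 3).mkQ ⟨W.push j 1, blow_E_mem hB⟩
  let Ψ : (Num W X 1 3 × ℚ) →ₗ[ℚ] Num W X' 1 3 := A.coprod (LinearMap.toSpanSingleton ℚ _ eE)
  have hΨ : ∀ (x : Cl W X 1) (a : ℚ), Ψ ((numSub W X 1 3).mkQ x, a) =
      (numSub W X' 1 3).mkQ (pullL π 1 x + a • ⟨W.push j 1, blow_E_mem hB⟩) := by
    intro x a
    rw [map_add, map_smul]
    rfl
  have hinj : Function.Injective Ψ := by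
    rw [← LinearMap.ker_eq_bot, LinearMap.ker_eq_bot']
    rintro ⟨x, a⟩ h0
    obtain ⟨x, rfl⟩ := (numSub W X 1 3).mkQ_surjective x
    rw [hΨ, Submodule.mkQ_apply, Submodule.Quotient.mk_eq_zero] at h0
    have h1 : x ∈ numSub W X 1 3 := by
      intro w hw
      have h2 := h0 (W.map π w) (Cl_map π hw)
      rw [Submodule.coe_add, Submodule.coe_smul, map_add, LinearMap.add_apply, map_smul,
        LinearMap.smul_apply, pullL_coe, blow_pull_pull hB] at h2
      have h3 : B W X' (W.push j 1) (W.map π w) = 0 := by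
        have := blow_exc_pull hB (s := 0) (by omega) 1 w
        rwa [pow_zero, one_mul, map_one] at this
      rw [h3, smul_zero, add_zero] at h2
      exact h2
    have h4 : a = 0 := by
      obtain ⟨y, hy, hy0⟩ := hpt
      set c := W.push j (W.cl E h ^ (2 - Z.dim) * W.map g (W.cl Z y)) with hc
      have hcm : c ∈ Cl W X' 3 := by
        refine Cl_push j (Cl_mul (blow_hpow hB _) (Cl_map g (cl_mem_Cl hy))) ?_
        rw [hdim']
        have := hB.dimE
        omega
      have h5 := h0 c hcm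
      rw [Submodule.coe_add, Submodule.coe_smul, map_add, LinearMap.add_apply, map_smul,
        LinearMap.smul_apply] at h5
      have h6 : B W X' (pullL π 1 x : Cl W X' 1) c = 0 := hnum x h1 c hcm
      have h7 : B W X' (W.push j 1) c = - Z.V.degCycle y := by
        have := blow_exc_top hB (s := 0) (t := 2 - Z.dim) (by omega) (Cl_one Z) (W.cl Z y)
        rw [pow_zero, one_mul, map_one] at this
        rw [hc, this, B_apply, one_mul, W.tr_cl hy, del_rat]
      rw [h6, zero_add] at h5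
      have h8 : a • B W X' (W.push j 1) c = 0 := h5
      rw [h7, smul_eq_mul] at h8
      exact (mul_eq_zero.1 h8).resolve_right (neg_ne_zero.2 hy0)
    refine Prod.ext ?_ h4
    rw [Submodule.mkQ_apply]
    exact (Submodule.Quotient.mk_eq_zero _).2 h1
  have hsur : Function.Surjective Ψ := by
    intro y
    obtain ⟨⟨_, z, hz, rfl⟩, rfl⟩ := (numSub W X' 1 3).mkQ_surjective y
    obtain ⟨x, hx, a, hxa⟩ := hB.gen1 z hz
    refine ⟨((numSub W X 1 3).mkQ ⟨W.cl X x, cl_mem_Cl hx⟩, a), ?_⟩
    rw [hΨ]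
    congr 1
    apply Subtype.ext
    rw [Submodule.coe_add, Submodule.coe_smul, pullL_coe, rat_smul]
    exact hxa.symm
  have hequiv := (LinearEquiv.ofBijective Ψ ⟨hinj, hsur⟩).finrank_eq
  rw [finrank_prod, finrank_self] at hequiv
  exact hequiv.symm

/-- Numerically trivial classes from `X`. -/
lemma blow_num_iff (hdim : X.dim = 4) (v : Cl W X 2) :
    pullL π 2 v ∈ numSub W X' 2 2 ↔ v ∈ numSub W X 2 2 := by
  have hdim' : X'.dim = 4 := by rw [hB.dim, hdim]
  constructor
  · intro h1 w hw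
    have h2 := h1 (W.map π w) (Cl_map π hw)
    rwa [pullL_coe, blow_pull_pull hB] at h2
  · intro h1 c hc
    rw [pullL_coe, B_pull π v.2 hc (show 2 + X.dim = 2 + X'.dim by rw [hdim, hdim'])]
    exact h1 _ (Cl_push π hc (by rw [hdim, hdim']))

lemma blow_pull_inj (v : W.H X) (h0 : W.map π v = 0) : v = 0 := by
  apply W.nondeg
  intro b
  have h1 : W.tr X (v * b) = W.tr X (W.push π 1 * (v * b)) := by rw [hB.birat, one_mul]
  rw [h1, W.tr_push, map_mul (W.map π), h0, zero_mul, mul_zero, map_zero]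

end

end Pool.Agent.Q70.FF
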