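import Pool.Agent.Q70.FF.Blow

/-!
# Blow-ups: the index
-/

set_option autoImplicit false
set_option linter.unusedSectionVars false

open CategoryTheory AlgebraicGeometry Module

universe u v

namespace Pool.Agent.Q70.FF

open Pool.Agent.H914 Pool.Agent.H914.VarClass Pool.Agent.H914.VarClass.Obj

variable {k : Type u} [Field k] {𝒱 : VarClass k} {ops : CycleOps 𝒱}
  {W : WeilCohomology.{u, v} ops}

/-- On a curve the classes of points are determined by the degree. -/
lemma curve_class {Z : 𝒱.Obj} (hZ : Z.dim = 1) {c : W.H Z} (hc : c ∈ Cl W Z 1)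
    (h0 : W.tr Z c = 0) : c = 0 := by
  classical
  apply W.nondeg
  intro b
  obtain ⟨z, hz, rfl⟩ := hc
  have hb : b ∈ ⨆ i, W.gr Z i := by
    rw [(W.isInternal Z).submodule_iSup_eq_top]
    exact Submodule.mem_top
  induction hb using Submodule.iSup_induction' with
  | zero => rw [mul_zero, map_zero]
  | add x y _ _ hx hy => rw [mul_add, map_add, hx, hy, add_zero]
  | mem i x hx =>
    rcases Nat.eq_zero_or_pos i with hi | hi
    · subst hi
      rw [W.gr_zero, Submodule.mem_span_singleton] at hx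
      obtain ⟨t, rfl⟩ := hx
      rw [mul_smul_comm, mul_one, map_smul, h0, smul_zero]
    · have h1 := W.mul_mem (W.cl_mem hz) hx
      rw [W.gr_eq_bot Z _ (by omega), Submodule.mem_bot] at h1
      rw [h1, map_zero]

/-- There are no classes of positive codimension on a point. -/
lemma point_class {Z : 𝒱.Obj} (hZ : Z.dim = 0) {c : W.H Z} (hc : c ∈ Cl W Z 1) : c = 0 := by
  obtain ⟨z, hz, rfl⟩ := hc
  have h1 := W.cl_mem hz
  rwa [W.gr_eq_bot Z _ (by omega), Submodule.mem_bot] at h1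

lemma B_one {Z : 𝒱.Obj} (a : W.H Z) : B W Z a 1 = del W (W.tr Z a) := by
  rw [B_apply, mul_one]

lemma degCycle_fund (Z : 𝒱.Obj) : Z.V.degCycle Z.V.fundCycle = 1 := by
  unfold SmVar.degCycle SmVar.fundCycle
  exact Finsupp.sum_single_index rfl

section

variable {X X' Z E : 𝒱.Obj} {π : X' ⟶ X} {i : Z ⟶ X} {j : E ⟶ X'} {g : E ⟶ Z} {h : E.Cycles}
  (hB : IsBlowup W π i j g h)

/-- The exceptional classes. -/
noncomputable def excL (j : E ⟶ X') (g : E ⟶ Z) (hd : 1 + X'.dim = 2 + E.dim) :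
    Cl W Z 1 →ₗ[ℚ] Cl W X' 2 :=
  (pushL j hd) ∘ₗ (pullL g 1)

lemma excL_coe (j : E ⟶ X') (g : E ⟶ Z) (hd : 1 + X'.dim = 2 + E.dim) (y : Cl W Z 1) :
    (excL j g hd y : W.H X') = W.push j (W.map g y) := rfl

include hB

lemma exc_pull (hdim : X.dim = 4) (y : W.H Z) (x : W.H X) :
    B W X' (W.push j (W.map g y)) (W.map π x) = 0 := by
  have h1 := hB.codim
  have := blow_exc_pull hB (s := 0) (by omega) y x
  rwa [pow_zero, one_mul] at this

lemma exc_surf (hdim : X.dim = 4) (hZ : Z.dim = 2) {y : W.H Z} (hy : y ∈ Cl W Z 1) (y' : W.H Z) :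
    B W X' (W.push j (W.map g y)) (W.push j (W.map g y')) = - B W Z y y' := by
  have := blow_exc_top hB (s := 0) (t := 0) (by omega) hy y'
  simpa using this

lemma idx_surface (hdim : X.dim = 4) (hZ : Z.dim = 2) {A : Z.Cycles}
    (hA : IsSurfacePolarization ops Z A) (R : Submodule ℚ (Cl W X 2))
    (R' : Submodule ℚ (Cl W X' 2)) (hR' : R' ≤ numSub W X' 2 2)
    (hpR : ∀ v, pullL π 2 v ∈ R' ↔ v ∈ R) (hd : 1 + X'.dim = 2 + E.dim)
    (hs : ∀ y : Cl W Z 1, y ∈ numSub W Z 1 1 → excL j g hd y ∈ R') (n : ℕ) :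
    Idx (bV W X) R n ↔ Idx (bV W X') R' (n + 1) := by
  have hAm : W.cl Z A ∈ Cl W Z 1 := cl_mem_Cl hA.cyc
  have hAA : 0 < B W Z (W.cl Z A) (W.cl Z A) := by
    rw [B_cl hA.cyc hA.cyc (by rw [hA.dim])]
    exact hA.pos
  let K : Submodule ℚ (Cl W Z 1) := LinearMap.ker ((B W Z (W.cl Z A)) ∘ₗ (Cl W Z 1).subtype)
  have hKm : ∀ y : Cl W Z 1, y ∈ K ↔ B W Z (W.cl Z A) y = 0 := fun y => Iff.rfl
  refine idx_succ (P := K.map (excL j g hd)) (fun v hv w => hR' hv w w.2) bV_symm (pullL π 2)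
    (fun v w => blow_pull_pull hB _ _) hpR (excL j g hd ⟨W.cl Z A, hAm⟩) ?_ ?_ ?_ ?_ ?_ ?_ n
  · rw [bV_apply, excL_coe, exc_surf hB hdim hZ hAm]
    linarith
  · intro v
    exact exc_pull hB hdim _ _
  · rintro _ ⟨y, hy, rfl⟩
    rw [bV_apply, excL_coe, excL_coe, exc_surf hB hdim hZ hAm]
    have h1 : B W Z (W.cl Z A) y = 0 := hy
    rw [h1, neg_zero]
  · rintro _ ⟨y, hy, rfl⟩ v
    exact exc_pull hB hdim _ _
  · rintro _ ⟨y, hy, rfl⟩ hyR
    have h1 : B W Z (W.cl Z A) y = 0 := hy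
    obtain ⟨_, z, hz, rfl⟩ := y
    rw [bV_apply, excL_coe, exc_surf hB hdim hZ (cl_mem_Cl hz), B_cl hz hz (by rw [hZ])]
    have h2 : inter ops A z = 0 := by
      rw [← B_cl (W := W) hA.cyc hz (by rw [hZ])]
      exact h1
    have h3 : ¬ NumTrivial ops Z 1 z := by
      intro h4
      apply hyR
      apply hs
      exact (numTrivial_iff (q := 1) (by rw [hZ]) hz).1 h4
    have := hA.neg z hz h2 h3
    linarith
  · rintro ⟨_, z, hz, rfl⟩
    obtain ⟨x, hx, y, hy, a, ha, h1⟩ := hB.gen2 z hz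
    have ha0 := ha (by omega)
    subst ha0
    set t : ℚ := B W Z (W.cl Z A) (W.cl Z y) / B W Z (W.cl Z A) (W.cl Z A) with ht
    set y' : Cl W Z 1 := ⟨W.cl Z y, cl_mem_Cl hy⟩ - t • ⟨W.cl Z A, hAm⟩ with hy'
    refine ⟨⟨W.cl X x, cl_mem_Cl hx⟩, t, excL j g hd y', ⟨y', ?_, rfl⟩, 0, zero_mem _, ?_⟩
    · change B W Z (W.cl Z A) (y' : Cl W Z 1) = 0
      rw [hy', Submodule.coe_sub, Submodule.coe_smul, map_sub, map_smul, smul_eq_mul, ht,
        div_mul_cancel₀ _ hAA.ne', sub_self]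
    · have h2 : excL j g hd y' = excL j g hd ⟨W.cl Z y, cl_mem_Cl hy⟩ -
          t • excL j g hd ⟨W.cl Z A, hAm⟩ := by rw [hy', map_sub, map_smul]
      rw [h2, add_zero, add_assoc, add_sub_cancel]
      apply Subtype.ext
      rw [Submodule.coe_add, excL_coe, pullL_coe]
      change W.cl X' z = _
      rw [h1, Rat.cast_zero, zero_smul, add_zero]

/-- The class `j_* h`. -/
noncomputable def ehL (hB : IsBlowup W π i j g h) (hd : 1 + X'.dim = 2 + E.dim) : Cl W X' 2 :=
  ⟨W.push j (W.cl E h), Cl_push j (cl_mem_Cl hB.hcyc) hd⟩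

lemma eh_pull (hdim : X.dim = 4) (hZ : Z.dim ≤ 1) (x : W.H X) :
    B W X' (W.push j (W.cl E h)) (W.map π x) = 0 := by
  have := blow_exc_pull hB (s := 1) (by omega) 1 x
  rwa [pow_one, map_one, mul_one] at this

lemma idx_curve (hdim : X.dim = 4) (hZ : Z.dim = 1)
    (hpt : ∃ y, Z.IsCyc Z.dim y ∧ Z.V.degCycle y ≠ 0) (R : Submodule ℚ (Cl W X 2))
    (R' : Submodule ℚ (Cl W X' 2)) (hR' : R' ≤ numSub W X' 2 2)
    (hpR : ∀ v, pullL π 2 v ∈ R' ↔ v ∈ R) (hd : 1 + X'.dim = 2 + E.dim) (n : ℕ) :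
    Idx (bV W X) R n ↔ Idx (bV W X') R' (n + 1) := by
  obtain ⟨pt, hpt, hpt0⟩ := hpt
  set d : ℚ := Z.V.degCycle pt with hdd
  have hpt1 : Z.IsCyc 1 pt := by rwa [hZ] at hpt
  have hptm : W.cl Z pt ∈ Cl W Z 1 := cl_mem_Cl hpt1
  set f : Cl W X' 2 := excL j g hd ⟨W.cl Z pt, hptm⟩ with hf
  set e : Cl W X' 2 := ehL hB hd with he
  have hff : bV W X' f f = 0 := by
    have := blow_exc_low hB (s := 0) (t := 0) (by omega) hptm (W.cl Z pt)
    rw [pow_zero, one_mul] at this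
    exact this
  have hfe : bV W X' f e = - d := by
    have := blow_exc_top hB (s := 0) (t := 1) (by omega) hptm 1
    rw [pow_zero, one_mul, pow_one, map_one, mul_one, B_one, W.tr_cl hpt, del_rat] at this
    exact this
  have hef : bV W X' e f = - d := by rw [bV_symm, hfe]
  set κ : ℚ := bV W X' e e with hκ
  set α : ℚ := (κ + 1) / (2 * d) with hα
  set β : ℚ := κ / d - α with hβ
  set w0 : Cl W X' 2 := e + α • f with hw0
  set w1 : Cl W X' 2 := e + β • f with hw1
  have hform : ∀ s t : ℚ, bV W X' (e + s • f) (e + t • f) = κ - d * (s + t) := by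
    intro s t
    simp only [map_add, map_smul, LinearMap.add_apply, LinearMap.smul_apply, hff, hfe, hef,
      smul_eq_mul, ← hκ]
    ring
  have hpull : ∀ (s t : ℚ) (v : Cl W X 2), bV W X' (s • e + t • f) (pullL π 2 v) = 0 := by
    intro s t v
    have h1 : bV W X' e (pullL π 2 v) = 0 := eh_pull hB hdim hZ.le _
    have h2 : bV W X' f (pullL π 2 v) = 0 := exc_pull hB hdim _ _
    rw [map_add, LinearMap.add_apply, map_smul, map_smul, LinearMap.smul_apply,
      LinearMap.smul_apply, h1, h2, smul_zero, smul_zero, add_zero]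
  have h00 : bV W X' w0 w0 = -1 := by
    rw [hw0, hform, hα]
    field_simp
    ring
  have h01 : bV W X' w0 w1 = 0 := by
    rw [hw0, hw1, hform, hβ]
    field_simp
    ring
  have h11 : bV W X' w1 w1 = 1 := by
    rw [hw1, hform, hβ, hα]
    field_simp
    ring
  refine idx_succ (P := Submodule.span ℚ {w1}) (fun v hv w => hR' hv w w.2) bV_symm (pullL π 2)
    (fun v w => blow_pull_pull hB _ _) hpR w0 ?_ ?_ ?_ ?_ ?_ ?_ n
  · rw [h00]
    norm_num
  · intro v
    have := hpull 1 α v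
    rwa [one_smul] at this
  · intro p hp
    obtain ⟨t, rfl⟩ := Submodule.mem_span_singleton.1 hp
    rw [map_smul, h01, smul_zero]
  · intro p hp v
    obtain ⟨t, rfl⟩ := Submodule.mem_span_singleton.1 hp
    have := hpull 1 β v
    rw [one_smul] at this
    rw [map_smul, LinearMap.smul_apply, this, smul_zero]
  · intro p hp hpR'
    obtain ⟨t, rfl⟩ := Submodule.mem_span_singleton.1 hp
    have ht : t ≠ 0 := by
      rintro rfl
      rw [zero_smul] at hpR'
      exact hpR' (zero_mem _)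
    rw [map_smul, map_smul, LinearMap.smul_apply, h11]
    simp only [smul_eq_mul, mul_one]
    exact mul_self_pos.2 ht
  · rintro ⟨_, z, hz, rfl⟩
    obtain ⟨x, hx, y, hy, a, ha, h1⟩ := hB.gen2 z hz
    set l : ℚ := Z.V.degCycle y / d with hl
    have hyl : W.cl Z y = (l : W.K) • W.cl Z pt := by
      rw [← sub_eq_zero]
      refine curve_class hZ ?_ ?_
      · rw [← rat_smul]
        exact sub_mem (cl_mem_Cl hy) ((Cl W Z 1).smul_mem l hptm)
      · rw [map_sub, map_smul, W.tr_cl (by rwa [hZ]), W.tr_cl hpt, smul_eq_mul, hl, ← hdd,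
          ← Rat.cast_mul, div_mul_cancel₀ _ hpt0, sub_self]
    have hfw : f = d • (w0 - w1) := by
      have h2 : w0 - w1 = (α - β) • f := by
        rw [hw0, hw1]
        module
      have h3 : d * (α - β) = 1 := by
        rw [hβ, hα]
        field_simp
        ring
      rw [h2, smul_smul, h3, one_smul]
    have hew : e = w0 - α • f := by rw [hw0, add_sub_cancel_right]
    refine ⟨⟨W.cl X x, cl_mem_Cl hx⟩, l * d + a - a * α * d, (-(l * d) + a * α * d) • w1,
      Submodule.smul_mem _ _ (Submodule.mem_span_singleton_self _), 0, zero_mem _, ?_⟩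
    have h4 : (⟨W.cl X' z, cl_mem_Cl hz⟩ : Cl W X' 2) =
        pullL π 2 ⟨W.cl X x, cl_mem_Cl hx⟩ + l • f + a • e := by
      apply Subtype.ext
      rw [Submodule.coe_add, Submodule.coe_add, Submodule.coe_smul, Submodule.coe_smul, rat_smul,
        rat_smul]
      change W.cl X' z = W.map π (W.cl X x) + (l : W.K) • W.push j (W.map g (W.cl Z pt)) +
        (a : W.K) • W.push j (W.cl E h)
      rw [h1, hyl, map_smul, map_smul]
    have h5 : (⟨W.cl X' z, ⟨z, hz, rfl⟩⟩ : Cl W X' 2) =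
        pullL π 2 ⟨W.cl X x, cl_mem_Cl hx⟩ + l • f + a • e := h4
    rw [h5, hew, hfw]
    module

lemma idx_point (hdim : X.dim = 4) (hZ : Z.dim = 0) (R : Submodule ℚ (Cl W X 2))
    (R' : Submodule ℚ (Cl W X' 2)) (hR' : R' ≤ numSub W X' 2 2)
    (hpR : ∀ v, pullL π 2 v ∈ R' ↔ v ∈ R) (hd : 1 + X'.dim = 2 + E.dim) (n : ℕ) :
    Idx (bV W X) R n ↔ Idx (bV W X') R' (n + 1) := by
  have hee : bV W X' (ehL hB hd) (ehL hB hd) = -1 := by
    have := blow_exc_top hB (s := 1) (t := 1) (by omega) (Cl_one Z) 1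
    rw [pow_one, map_one, mul_one, B_one, ← W.cl_fund, W.tr_cl (by
      rw [hZ]
      exact SmVar.fundCycle_mem _), degCycle_fund, del_rat] at this
    exact this
  refine idx_succ (P := ⊥) (fun v hv w => hR' hv w w.2) bV_symm (pullL π 2)
    (fun v w => blow_pull_pull hB _ _) hpR (ehL hB hd) ?_ ?_ ?_ ?_ ?_ ?_ n
  · rw [hee]
    norm_num
  · intro v
    exact eh_pull hB hdim (by omega) _
  · intro p hp
    rw [(Submodule.mem_bot ℚ).1 hp, map_zero]
  · intro p hp v
    rw [(Submodule.mem_bot ℚ).1 hp, map_zero, LinearMap.zero_apply]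
  · intro p hp hpR'
    rw [(Submodule.mem_bot ℚ).1 hp] at hpR'
    exact absurd (zero_mem _) hpR'
  · rintro ⟨_, z, hz, rfl⟩
    obtain ⟨x, hx, y, hy, a, ha, h1⟩ := hB.gen2 z hz
    refine ⟨⟨W.cl X x, cl_mem_Cl hx⟩, a, 0, zero_mem _, 0, zero_mem _, ?_⟩
    rw [add_zero, add_zero]
    apply Subtype.ext
    rw [Submodule.coe_add, Submodule.coe_smul, rat_smul]
    change W.cl X' z = W.map π (W.cl X x) + (a : W.K) • W.push j (W.cl E h)
    rw [h1, point_class hZ (cl_mem_Cl hy), map_zero, map_zero, add_zero]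

end

end Pool.Agent.Q70.FF
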