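import Mathlib

/-!
# Nonpositive subspaces and forms on the classes of codimension two of a fourfold: linear algebra
-/

set_option autoImplicit false

namespace Pool.Agent.Q70.FF

open Module

/-- Every finite-dimensional subspace on which the form is not positive, and which meets `R` only
in zero, has dimension at most `n`. -/
def Idx {V : Type*} [AddCommGroup V] [Module ℚ V] (b : V →ₗ[ℚ] V →ₗ[ℚ] ℚ) (R : Submodule ℚ V)
    (n : ℕ) : Prop :=
  ∀ (r : ℕ) (f : (Fin r → ℚ) →ₗ[ℚ] V), (∀ x, f x ∈ R → x = 0) → (∀ x, b (f x) (f x) ≤ 0) → r ≤ n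

/-- Positivity of the form on the primitive vectors outside of `R`. -/
def Hod {V N : Type*} [AddCommGroup V] [Module ℚ V] [AddCommGroup N] [Module ℚ N]
    (b : V →ₗ[ℚ] V →ₗ[ℚ] ℚ) (c : V →ₗ[ℚ] N →ₗ[ℚ] ℚ) (R : Submodule ℚ V) : Prop :=
  ∀ v, (∀ x, c v x = 0) → v ∉ R → 0 < b v v

section

variable {V N : Type*} [AddCommGroup V] [Module ℚ V] [AddCommGroup N] [Module ℚ N]
  {b : V →ₗ[ℚ] V →ₗ[ℚ] ℚ} {c : V →ₗ[ℚ] N →ₗ[ℚ] ℚ} {R : Submodule ℚ V}

/-- The version with an arbitrary finite-dimensional source. -/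
lemma Idx.finrank_le {n : ℕ} (h : Idx b R n) {U : Type*} [AddCommGroup U] [Module ℚ U]
    [Module.Finite ℚ U] (f : U →ₗ[ℚ] V) (h1 : ∀ x, f x ∈ R → x = 0)
    (h2 : ∀ x, b (f x) (f x) ≤ 0) : finrank ℚ U ≤ n := by
  let e := (Module.finBasis ℚ U).equivFun
  refine h (finrank ℚ U) (f ∘ₗ e.symm.toLinearMap) ?_ ?_
  · intro x hx
    have := h1 _ hx
    simpa using this
  · intro x
    exact h2 _

/-- A linear map which realizes the functionals. -/
lemma exists_m [Module.Finite ℚ N] (h : ∀ x : N, ∃ w : V, ∀ v, b v w = c v x) :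
    ∃ m : N →ₗ[ℚ] V, ∀ v x, b v (m x) = c v x := by
  classical
  choose w hw using h
  let e := Module.finBasis ℚ N
  refine ⟨e.constr ℚ (fun i => w (e i)), fun v x => ?_⟩
  have h1 : (b v) ∘ₗ (e.constr ℚ (fun i => w (e i))) = c v := by
    apply e.ext
    intro i
    simp [hw]
  exact LinearMap.congr_fun h1 x

/-- **The conjecture of Hodge type in terms of the index.** -/
theorem hod_iff_idx [Module.Finite ℚ N] (hsym : ∀ x y, b x y = b y x)
    (hR : ∀ v ∈ R, ∀ w, b v w = 0) (m : N →ₗ[ℚ] V) (hm : ∀ v x, b v (m x) = c v x) (l : N)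
    (hl : 0 < c (m l) l) (hneg : ∀ x, c (m l) x = 0 → x ≠ 0 → c (m x) x < 0) :
    Hod b c R ↔ Idx b R (finrank ℚ N - 1) := by
  classical
  set N0 : Submodule ℚ N := LinearMap.ker (c (m l)) with hN0
  have hqs : ∀ x y, c (m x) y = c (m y) x := fun x y => by rw [← hm, ← hm, hsym]
  have hl0 : c (m l) ≠ 0 := fun h => by rw [h] at hl; simp at hl
  have hrank : finrank ℚ N0 + 1 = finrank ℚ N := by
    have h1 : finrank ℚ (LinearMap.range (c (m l))) + finrank ℚ N0 = finrank ℚ N :=
      (c (m l)).finrank_range_add_finrank_ker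
    have h2 : finrank ℚ (LinearMap.range (c (m l))) = 1 := by
      rw [LinearMap.range_eq_top.2 (LinearMap.surjective hl0), finrank_top, finrank_self]
    omega
  constructor
  · intro hH r f h1 h2
    by_contra hr
    push Not at hr
    have hr' : finrank ℚ N0 < r := by omega
    -- the functionals on `N0`
    let g : (Fin r → ℚ) →ₗ[ℚ] Module.Dual ℚ N0 :=
      (Submodule.dualRestrict N0) ∘ₗ (c ∘ₗ f : (Fin r → ℚ) →ₗ[ℚ] (N →ₗ[ℚ] ℚ))
    have hker : LinearMap.ker g ≠ ⊥ := by
      apply LinearMap.ker_ne_bot_of_finrank_lt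
      rw [Subspace.dual_finrank_eq, finrank_pi, Fintype.card_fin]
      exact hr'
    obtain ⟨x, hx, hx0⟩ := Submodule.exists_mem_ne_zero_of_ne_bot hker
    have hx1 : ∀ y ∈ N0, c (f x) y = 0 := by
      intro y hy
      have h3 : g x = 0 := hx
      exact LinearMap.congr_fun h3 ⟨y, hy⟩
    set t : ℚ := c (f x) l / c (m l) l with ht
    set v : V := f x - t • m l with hv
    have hvl : c v l = 0 := by
      rw [hv, map_sub, map_smul, LinearMap.sub_apply, LinearMap.smul_apply, smul_eq_mul, ht,
        div_mul_cancel₀ _ hl.ne', sub_self]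
    have hv0 : ∀ y, c v y = 0 := by
      intro y
      set s : ℚ := c (m l) y / c (m l) l with hs
      have h4 : y - s • l ∈ N0 := by
        rw [hN0, LinearMap.mem_ker, map_sub, map_smul, smul_eq_mul, hs, div_mul_cancel₀ _ hl.ne',
          sub_self]
      have h5 : c v (y - s • l) = 0 := by
        have h6 : c (m l) (y - s • l) = 0 := h4
        have h6' : c v = c (f x) - t • c (m l) := by rw [hv, map_sub, map_smul]
        rw [h6', LinearMap.sub_apply, LinearMap.smul_apply, hx1 _ h4, h6, smul_zero, sub_zero]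
      have h7 : c v y = c v (y - s • l) + s * c v l := by
        rw [(c v).map_sub, (c v).map_smul, smul_eq_mul]
        ring
      rw [h7, h5, hvl, mul_zero, add_zero]
    have hfx : f x = v + t • m l := by rw [hv, sub_add_cancel]
    have hb : b (f x) (f x) = b v v + t ^ 2 * c (m l) l := by
      have h8 : b v (m l) = 0 := by rw [hm, hvl]
      have h9 : b (m l) v = 0 := by rw [hsym, h8]
      rw [hfx]
      simp only [map_add, map_smul, LinearMap.add_apply, LinearMap.smul_apply, h8, h9, hm,
        smul_eq_mul]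
      ring
    by_cases hvR : v ∈ R
    · have h10 : b v v = 0 := hR v hvR v
      have h11 := h2 x
      rw [hb, h10, zero_add] at h11
      have h12 : t = 0 := by
        by_contra hne
        have : 0 < t ^ 2 * c (m l) l := mul_pos (by positivity) hl
        linarith
      rw [h12, zero_smul, add_zero] at hfx
      exact hx0 (h1 x (hfx ▸ hvR))
    · have h13 := hH v hv0 hvR
      have h14 := h2 x
      have h15 : 0 ≤ t ^ 2 * c (m l) l := mul_nonneg (sq_nonneg t) hl.le
      rw [hb] at h14
      linarith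
  · intro hI v hv hvR
    by_contra hle
    push Not at hle
    let f : (N0 × ℚ) →ₗ[ℚ] V :=
      LinearMap.coprod (m ∘ₗ N0.subtype) (LinearMap.toSpanSingleton ℚ V v)
    have hf : ∀ x, f x = m x.1 + x.2 • v := fun x => by
      simp [f, LinearMap.coprod_apply, LinearMap.toSpanSingleton_apply]
    have hbf : ∀ x, b (f x) (f x) = c (m x.1) x.1 + x.2 ^ 2 * b v v := by
      intro x
      have h8 : b v (m x.1) = 0 := by rw [hm, hv]
      have h9 : b (m x.1) v = 0 := by rw [hsym, h8]
      rw [hf]
      simp only [map_add, map_smul, LinearMap.add_apply, LinearMap.smul_apply, h8, h9, hm,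
        smul_eq_mul]
      ring
    have hq : ∀ x : N0, c (m x) x ≤ 0 := by
      intro x
      by_cases hx : (x : N) = 0
      · rw [hx, map_zero]
      · exact (hneg x x.2 hx).le
    have hsq : ∀ s : ℚ, s ^ 2 * b v v ≤ 0 := fun s => mul_nonpos_of_nonneg_of_nonpos (sq_nonneg s) hle
    have key := hI.finrank_le f ?_ ?_
    · rw [finrank_prod, finrank_self] at key
      omega
    · intro x hx
      have h1 : b (f x) (f x) = 0 := hR _ hx _
      rw [hbf] at h1
      have h2 : c (m x.1) x.1 = 0 := by
        have := hq x.1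
        have := hsq x.2
        linarith
      have h3 : (x.1 : N) = 0 := by
        by_contra hne
        have := hneg x.1 x.1.2 hne
        linarith
      rw [hf, h3, map_zero, zero_add] at hx
      have h4 : x.2 = 0 := by
        by_contra hne
        apply hvR
        have := R.smul_mem x.2⁻¹ hx
        rwa [smul_smul, inv_mul_cancel₀ hne, one_smul] at this
      exact Prod.ext (Subtype.ext h3) h4
    · intro x
      rw [hbf]
      have := hq x.1
      have := hsq x.2
      linarith

/-- **One negative vector more.** -/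
theorem idx_succ {V' : Type*} [AddCommGroup V'] [Module ℚ V'] {b' : V' →ₗ[ℚ] V' →ₗ[ℚ] ℚ}
    {R' P : Submodule ℚ V'} (hR' : ∀ v ∈ R', ∀ w, b' v w = 0) (hsym' : ∀ x y, b' x y = b' y x)
    (pi : V →ₗ[ℚ] V') (hpi : ∀ v w, b' (pi v) (pi w) = b v w) (hpR : ∀ v, pi v ∈ R' ↔ v ∈ R)
    (w0 : V') (hw0 : b' w0 w0 < 0) (hw1 : ∀ v, b' w0 (pi v) = 0) (hP1 : ∀ p ∈ P, b' w0 p = 0)
    (hP2 : ∀ p ∈ P, ∀ v, b' p (pi v) = 0) (hP3 : ∀ p ∈ P, p ∉ R' → 0 < b' p p)
    (hgen : ∀ u, ∃ v, ∃ s : ℚ, ∃ p ∈ P, ∃ r ∈ R', u = pi v + s • w0 + p + r) (n : ℕ) :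
    Idx b R n ↔ Idx b' R' (n + 1) := by
  classical
  have hP0 : ∀ p ∈ P, 0 ≤ b' p p := by
    intro p hp
    by_cases h : p ∈ R'
    · rw [hR' p h]
    · exact (hP3 p hp h).le
  constructor
  · intro hI r f h1 h2
    -- the vectors orthogonal to `w0`
    let g : (Fin r → ℚ) →ₗ[ℚ] ℚ := (b' w0) ∘ₗ f
    set U := LinearMap.ker g with hU
    have hdim : r ≤ finrank ℚ U + 1 := by
      have h3 : finrank ℚ (LinearMap.range g) + finrank ℚ U = finrank ℚ (Fin r → ℚ) :=
        g.finrank_range_add_finrank_ker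
      have h4 : finrank ℚ (LinearMap.range g) ≤ 1 := by
        have := Submodule.finrank_le (LinearMap.range g)
        rwa [finrank_self] at this
      rw [finrank_pi, Fintype.card_fin] at h3
      omega
    -- decompositions
    have hdec : ∀ x : U, ∃ v, ∃ p ∈ P, f x - pi v - p ∈ R' := by
      intro x
      obtain ⟨v, s, p, hp, r', hr', h5⟩ := hgen (f x)
      have h6 : b' w0 (f x) = 0 := x.2
      rw [h5, map_add, map_add, map_add, map_smul, hw1, hP1 p hp, zero_add, add_zero,
        show b' w0 r' = 0 from by rw [hsym', hR' r' hr'], add_zero, smul_eq_mul] at h6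
      have h7 : s = 0 := (mul_eq_zero.1 h6).resolve_right hw0.ne
      refine ⟨v, p, hp, ?_⟩
      rw [h5, h7, zero_smul, add_zero]
      have : pi v + p + r' - pi v - p = r' := by abel
      rw [this]
      exact hr'
    choose v p hp hvp using hdec
    let e := Module.finBasis ℚ U
    let sV : U →ₗ[ℚ] V := e.constr ℚ (fun i => v (e i))
    let sP : U →ₗ[ℚ] V' := e.constr ℚ (fun i => p (e i))
    have hsP : ∀ x, sP x ∈ P := by
      intro x
      have h8 : LinearMap.range sP ≤ P := by
        rw [Basis.constr_range, Submodule.span_le]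
        rintro _ ⟨i, rfl⟩
        exact hp _
      exact h8 ⟨x, rfl⟩
    have hres : ∀ x : U, f x - pi (sV x) - sP x ∈ R' := by
      intro x
      let d : U →ₗ[ℚ] V' := f ∘ₗ U.subtype - pi ∘ₗ sV - sP
      have h9 : (⊤ : Submodule ℚ U) ≤ R'.comap d := by
        rw [← e.span_eq, Submodule.span_le]
        rintro _ ⟨i, rfl⟩
        change f (e i) - pi (sV (e i)) - sP (e i) ∈ R'
        have h10 : sV (e i) = v (e i) := e.constr_basis ℚ _ i
        have h11 : sP (e i) = p (e i) := e.constr_basis ℚ _ i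
        rw [h10, h11]
        exact hvp _
      exact h9 (Submodule.mem_top (x := x))
    have hform : ∀ x : U, b' (f x) (f x) = b (sV x) (sV x) + b' (sP x) (sP x) := by
      intro x
      set r' := f x - pi (sV x) - sP x with hr'
      have h12 : f x = pi (sV x) + sP x + r' := by rw [hr']; abel
      have h13 : ∀ w, b' w r' = 0 := fun w => by rw [hsym', hR' r' (hres x)]
      have h14 : ∀ w, b' r' w = 0 := hR' r' (hres x)
      have h15 : b' (sP x) (pi (sV x)) = 0 := hP2 _ (hsP x) _
      have h16 : b' (pi (sV x)) (sP x) = 0 := by rw [hsym', h15]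
      rw [h12]
      simp only [map_add, LinearMap.add_apply, h13, h14, h15, h16, hpi]
      ring
    have key := hI.finrank_le sV ?_ ?_
    · omega
    · intro x hx
      have h17 : b (sV x) (sV x) = 0 := by
        have : pi (sV x) ∈ R' := (hpR _).2 hx
        rw [← hpi, hR' _ this]
      have h18 : sP x ∈ R' := by
        by_contra hne
        have h19 := hP3 _ (hsP x) hne
        have h20 := h2 x
        rw [hform, h17] at h20
        linarith
      have h21 : f x ∈ R' := by
        have := R'.add_mem (R'.add_mem (hres x) ((hpR _).2 hx)) h18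
        convert this using 1
        abel
      exact Subtype.ext (h1 x h21)
    · intro x
      have h22 := h2 x
      rw [hform] at h22
      have := hP0 _ (hsP x)
      linarith
  · intro hI r f h1 h2
    let g : ((Fin r → ℚ) × ℚ) →ₗ[ℚ] V' :=
      LinearMap.coprod (pi ∘ₗ f) (LinearMap.toSpanSingleton ℚ V' w0)
    have hg : ∀ x, g x = pi (f x.1) + x.2 • w0 := fun x => by
      simp [g, LinearMap.coprod_apply, LinearMap.toSpanSingleton_apply]
    have hw2 : ∀ v, b' (pi v) w0 = 0 := fun v => by rw [hsym', hw1]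
    have hbg : ∀ x, b' (g x) (g x) = b (f x.1) (f x.1) + x.2 ^ 2 * b' w0 w0 := by
      intro x
      rw [hg]
      simp only [map_add, LinearMap.add_apply, map_smul, LinearMap.smul_apply, hw1, hw2, hpi,
        smul_eq_mul]
      ring
    have key := hI.finrank_le g ?_ ?_
    · rw [finrank_prod, finrank_self, finrank_pi, Fintype.card_fin] at key
      omega
    · intro x hx
      have h3 : b' (g x) w0 = 0 := hR' _ hx _
      rw [hg, map_add, LinearMap.add_apply, hw2, zero_add, map_smul, LinearMap.smul_apply,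
        smul_eq_mul] at h3
      have h4 : x.2 = 0 := (mul_eq_zero.1 h3).resolve_right hw0.ne
      rw [hg, h4, zero_smul, add_zero, hpR] at hx
      exact Prod.ext (h1 _ hx) h4
    · intro x
      rw [hbg]
      have h5 := h2 x.1
      have h6 : x.2 ^ 2 * b' w0 w0 ≤ 0 := mul_nonpos_of_nonneg_of_nonpos (sq_nonneg _) hw0.le
      linarith

end

end Pool.Agent.Q70.FF
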