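import Pool.Agent.Q70.FF.Main

/-!
# Fibrations in curves over threefolds
-/

set_option autoImplicit false
set_option linter.unusedSectionVars false

open CategoryTheory AlgebraicGeometry Module

universe u v

namespace Pool.Agent.Q70.FF

open Pool.Agent.H914 Pool.Agent.H914.VarClass Pool.Agent.H914.VarClass.Obj

variable {k : Type u} [Field k] {𝒱 : VarClass k} {ops : CycleOps 𝒱}
  {W : WeilCohomology.{u, v} ops}

/-- An isotropic vector of a semidefinite plane is orthogonal to it. -/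
lemma isotropic_pair {V : Type*} [AddCommGroup V] [Module ℚ V] (b : V →ₗ[ℚ] V →ₗ[ℚ] ℚ)
    (hs : ∀ x y, b x y = b y x) {u v : V} (h : ∀ s : ℚ, 0 ≤ b (s • u + v) (s • u + v))
    (hu : b u u = 0) : b u v = 0 := by
  by_contra hne
  have h1 := h (-(1 + b v v) / (2 * b u v))
  simp only [map_add, map_smul, LinearMap.add_apply, LinearMap.smul_apply, smul_eq_mul, hu,
    hs v u] at h1
  have h2 : -(1 + b v v) / (2 * b u v) * (-(1 + b v v) / (2 * b u v) * 0 + b u v) +
      (-(1 + b v v) / (2 * b u v) * b u v + b v v) = -1 := by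
    field_simp
    ring
  linarith

section

variable {X T : 𝒱.Obj} {f : X ⟶ T} (hf : IsFibration W f)

include hf

lemma fib_num (hdim : X.dim = 4) (y : Cl W T 1) (hy : y ∈ numSub W T 1 2) :
    pullL f 1 y ∈ numSub W X 1 3 := by
  have hT : T.dim = 3 := by have := hf.dim; omega
  intro c hc
  rw [pullL_coe, B_pull f y.2 hc (show 3 + T.dim = 2 + X.dim by omega)]
  exact hy _ (Cl_push f hc (by omega))

lemma fib_rank (hdim : X.dim = 4) (hpt : ∃ y, T.IsCyc T.dim y ∧ T.V.degCycle y ≠ 0) :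
    finrank ℚ (Num W T 1 2) + 1 ≤ finrank ℚ (Num W X 1 3) := by
  have hT : T.dim = 3 := by have := hf.dim; omega
  have hfin : Module.Finite ℚ (Num W X 1 3) := num_finite X 1 3 (by rw [hdim])
  have hfinT : Module.Finite ℚ (Num W T 1 2) := num_finite T 1 2 (by rw [hT])
  obtain ⟨h, a, hh, ha, hha⟩ := hf.fibre
  have hhm : W.cl X h ∈ Cl W X 1 := cl_mem_Cl hh
  have hpull : ∀ {p : ℕ} {c : W.H T} (b : W.H T), c ∈ Cl W T p →
      B W X (W.map f c) (W.map f b) = 0 := by
    intro p c b _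
    have h1 : B W X (W.map f c) (W.map f b) = B W X 1 (W.map f (c * b)) := by
      rw [map_mul, ← B_assoc, one_mul]
    rw [h1, ← B_push, hf.push_one, map_zero, LinearMap.zero_apply]
  have hhp : ∀ b : W.H T, B W X (W.cl X h) (W.map f b) = a * B W T 1 b := by
    intro b
    rw [← B_push, hha, ← rat_smul, map_smul, LinearMap.smul_apply, smul_eq_mul]
  let A : Num W T 1 2 →ₗ[ℚ] Num W X 1 3 :=
    (numSub W T 1 2).mapQ (numSub W X 1 3) (pullL f 1) (fun x hx => fib_num hf hdim x hx)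
  let eh : Num W X 1 3 := (numSub W X 1 3).mkQ ⟨W.cl X h, hhm⟩
  let Ψ : (Num W T 1 2 × ℚ) →ₗ[ℚ] Num W X 1 3 := A.coprod (LinearMap.toSpanSingleton ℚ _ eh)
  have hΨ : ∀ (x : Cl W T 1) (s : ℚ), Ψ ((numSub W T 1 2).mkQ x, s) =
      (numSub W X 1 3).mkQ (pullL f 1 x + s • ⟨W.cl X h, hhm⟩) := by
    intro x s
    rw [map_add, map_smul]
    rfl
  have hinj : Function.Injective Ψ := by
    rw [← LinearMap.ker_eq_bot, LinearMap.ker_eq_bot']
    rintro ⟨x, s⟩ h0
    obtain ⟨x, rfl⟩ := (numSub W T 1 2).mkQ_surjective x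
    rw [hΨ, Submodule.mkQ_apply, Submodule.Quotient.mk_eq_zero] at h0
    have hs : s = 0 := by
      obtain ⟨y, hy, hy0⟩ := hpt
      have hy3 : T.IsCyc 3 y := by rwa [hT] at hy
      have h2 := h0 (W.map f (W.cl T y)) (Cl_map f (cl_mem_Cl hy3))
      rw [Submodule.coe_add, Submodule.coe_smul, map_add, LinearMap.add_apply, map_smul,
        LinearMap.smul_apply, pullL_coe, hpull _ x.2] at h2
      have h3 : B W X (W.cl X h) (W.map f (W.cl T y)) = a * T.V.degCycle y := by
        rw [hhp, B_apply, one_mul, W.tr_cl hy, del_rat]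
      have h4 : s • B W X (W.cl X h) (W.map f (W.cl T y)) = 0 := by
        rw [zero_add] at h2
        exact h2
      rw [h3, smul_eq_mul] at h4
      exact (mul_eq_zero.1 h4).resolve_right (mul_ne_zero ha hy0)
    have hx : x ∈ numSub W T 1 2 := by
      intro w hw
      have hc : W.cl X h * W.map f w ∈ Cl W X 3 := Cl_mul hhm (Cl_map f hw)
      have h2 := h0 (W.cl X h * W.map f w) hc
      rw [hs, zero_smul, add_zero, pullL_coe] at h2
      have h3 : B W X (W.map f x) (W.cl X h * W.map f w) = a * B W T x w := by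
        rw [← B_assoc, Cl_comm (Cl_map f x.2) hhm, B_assoc, ← map_mul, hhp, ← B_assoc, one_mul]
      rw [h3] at h2
      exact (mul_eq_zero.1 h2).resolve_left ha
    refine Prod.ext ?_ hs
    rw [Submodule.mkQ_apply]
    exact (Submodule.Quotient.mk_eq_zero _).2 hx
  have := LinearMap.finrank_le_finrank_of_injective hinj
  rwa [finrank_prod, finrank_self] at this

/-- **The criterion for fibrations in curves over threefolds.** -/
theorem hodgeNum_fibration (hdim : X.dim = 4)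
    (hpt : ∃ y, T.IsCyc T.dim y ∧ T.V.degCycle y ≠ 0)
    (hpos : ∀ z, X.IsCyc 2 z → NumTrivial ops T 1 (ops.push f z) → 0 ≤ inter ops z z)
    {D : X.Cycles} (hD : IsPolarization ops X D) : HodgeNum ops X D := by
  classical
  have hT : T.dim = 3 := by have := hf.dim; omega
  have hd : 2 + T.dim = 1 + X.dim := by omega
  have hfinT : Module.Finite ℚ (Num W T 1 2) := num_finite T 1 2 (by rw [hT])
  rw [hodgeNum_iff (W := W) hD, hod_iff hD _ le_rfl]
  have hrk := fib_rank hf hdim hpt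
  intro r φ h1 h2
  let τ : Cl W X 2 →ₗ[ℚ] Num W T 1 2 := (numSub W T 1 2).mkQ ∘ₗ (pushL f hd)
  have hpos' : ∀ v, τ v = 0 → 0 ≤ bV W X v v := by
    rintro ⟨_, z, hz, rfl⟩ hv
    have h3 : (numSub W T 1 2).mkQ (pushL f hd ⟨W.cl X z, ⟨z, hz, rfl⟩⟩) = 0 := hv
    rw [Submodule.mkQ_apply, Submodule.Quotient.mk_eq_zero] at h3
    have h4 : NumTrivial ops T 1 (ops.push f z) := by
      rw [numTrivial_iff (W := W) (q := 2) (by rw [hT]) (ops.push_mem f hz hd), W.cl_push]
      exact h3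
    have h5 := hpos z hz h4
    rw [← B_cl (W := W) hz hz (by rw [hdim])] at h5
    exact h5
  let τφ : (Fin r → ℚ) →ₗ[ℚ] Num W T 1 2 := τ ∘ₗ φ
  set U0 := LinearMap.ker τφ with hU0
  set Yr := LinearMap.range τφ with hYr
  have hrn : finrank ℚ Yr + finrank ℚ U0 = r := by
    have h3 : finrank ℚ Yr + finrank ℚ U0 = finrank ℚ (Fin r → ℚ) :=
      τφ.finrank_range_add_finrank_ker
    rwa [finrank_pi, Fintype.card_fin] at h3
  let bφ : (Fin r → ℚ) →ₗ[ℚ] (Fin r → ℚ) →ₗ[ℚ] ℚ := (bV W X).compl₁₂ φ φ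
  have h0 : ∀ u0 ∈ U0, bV W X (φ u0) (φ u0) = 0 := fun u0 hu0 =>
    le_antisymm (h2 u0) (hpos' _ hu0)
  have hann1 : ∀ u0 ∈ U0, ∀ u, bV W X (φ u0) (φ u) = 0 := fun u0 hu0 u =>
    isotropic_radical bφ (fun x y => bV_symm _ _) h2 (h0 u0 hu0) u
  have hann2 : ∀ u0 ∈ U0, ∀ v, τ v = 0 → bV W X (φ u0) v = 0 := by
    intro u0 hu0 v hv
    refine isotropic_pair (bV W X) bV_symm (fun s => hpos' _ ?_) (h0 u0 hu0)
    have h3 : τ (φ u0) = 0 := hu0
    rw [map_add, map_smul, h3, hv, smul_zero, add_zero]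
  let lam : U0 →ₗ[ℚ] Module.Dual ℚ (Cl W X 2) := (bV W X) ∘ₗ φ ∘ₗ U0.subtype
  have hlam : Function.Injective lam := by
    rw [← LinearMap.ker_eq_bot, LinearMap.ker_eq_bot']
    intro u0 h3
    apply Subtype.ext
    apply h1
    intro c hc
    exact LinearMap.congr_fun h3 ⟨c, hc⟩
  have hle : LinearMap.range lam ≤ Submodule.map τ.dualMap Yr.dualAnnihilator := by
    rintro _ ⟨u0, rfl⟩
    have h3 : lam u0 ∈ (LinearMap.ker τ).dualAnnihilator := by
      rw [Submodule.mem_dualAnnihilator]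
      intro v hv
      exact hann2 u0 u0.2 v hv
    rw [← LinearMap.range_dualMap_eq_dualAnnihilator_ker] at h3
    obtain ⟨μ, hμ⟩ := h3
    refine ⟨μ, ?_, hμ⟩
    rw [SetLike.mem_coe, Submodule.mem_dualAnnihilator]
    rintro _ ⟨u, rfl⟩
    have h4 : μ (τφ u) = lam u0 (φ u) := by
      rw [← hμ]
      rfl
    rw [h4]
    exact hann1 u0 u0.2 u
  have h5 : finrank ℚ U0 ≤ finrank ℚ Yr.dualAnnihilator := by
    rw [← LinearMap.finrank_range_of_inj hlam]
    exact (Submodule.finrank_mono hle).trans (Submodule.finrank_map_le _ _)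
  have h7 := Subspace.finrank_add_finrank_dualAnnihilator_eq Yr
  omega

/-- **Conic bundles (fibrations of Prym type).** -/
theorem hodgeNum_prym (hdim : X.dim = 4)
    (hpt : ∃ y, T.IsCyc T.dim y ∧ T.V.degCycle y ≠ 0) {S : 𝒱.Obj} {A : S.Cycles}
    (hA : IsSurfacePolarization ops S A)
    (hprym : ∀ z, X.IsCyc 2 z → NumTrivial ops T 1 (ops.push f z) →
      ∃ y, S.IsCyc 1 y ∧ inter ops A y = 0 ∧ inter ops z z = -2 * inter ops y y)
    {D : X.Cycles} (hD : IsPolarization ops X D) : HodgeNum ops X D := by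
  refine hodgeNum_fibration hf hdim hpt (fun z hz hz0 => ?_) hD
  obtain ⟨y, hy, hAy, hzy⟩ := hprym z hz hz0
  have h1 : inter ops y y ≤ 0 := by
    by_cases hn : NumTrivial ops S 1 y
    · exact (hn 1 y (by rw [hA.dim]) hy).le
    · exact (hA.neg y hy hAy hn).le
  rw [hzy]
  linarith

end

end Pool.Agent.Q70.FF
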