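import Pool.Agent.Q70.FF.Basic

/-!
# Fourfolds: the conjecture of Hodge type in terms of the index of the intersection form
-/

set_option autoImplicit false

open CategoryTheory AlgebraicGeometry Module

universe u v

namespace Pool.Agent.Q70.FF

open Pool.Agent.H914 Pool.Agent.H914.VarClass Pool.Agent.H914.VarClass.Obj

variable {k : Type u} [Field k] {𝒱 : VarClass k} {ops : CycleOps 𝒱}
  {W : WeilCohomology.{u, v} ops}

variable (W) in
/-- The intersection form on the classes of codimension two. -/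
noncomputable def bV (X : 𝒱.Obj) : Cl W X 2 →ₗ[ℚ] Cl W X 2 →ₗ[ℚ] ℚ :=
  (B W X).domRestrict₁₂ (Cl W X 2) (Cl W X 2)

lemma bV_apply {X : 𝒱.Obj} (a b : Cl W X 2) : bV W X a b = B W X a b := rfl

lemma bV_symm {X : 𝒱.Obj} (a b : Cl W X 2) : bV W X a b = bV W X b a := by
  rw [bV_apply, bV_apply, B_symm a.2 b.2]

lemma cl_D_mul {X : 𝒱.Obj} {D : X.Cycles} (hD : X.IsCyc 1 D) {p : ℕ} {a : W.H X}
    (ha : a ∈ Cl W X p) : W.cl X D * a ∈ Cl W X (1 + p) := Cl_mul (cl_mem_Cl hD) ha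

/-- The functional `a ↦ v ξ a` on the divisor classes. -/
noncomputable def phi {X : 𝒱.Obj} (D : X.Cycles) (v : W.H X) : Cl W X 1 →ₗ[ℚ] ℚ :=
  (B W X (v * W.cl X D)) ∘ₗ (Cl W X 1).subtype

lemma phi_apply {X : 𝒱.Obj} (D : X.Cycles) (v : W.H X) (a : Cl W X 1) :
    phi D v a = B W X v (W.cl X D * a) := by
  rw [← B_assoc]
  rfl

/-- The pairing of the classes of codimension two with the divisors given by `D`. -/
noncomputable def cV {X : 𝒱.Obj} {D : X.Cycles} (hD : X.IsCyc 1 D) :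
    Cl W X 2 →ₗ[ℚ] Num W X 1 3 →ₗ[ℚ] ℚ where
  toFun v := (numSub W X 1 3).liftQ (phi D (v : W.H X)) (by
    intro a ha
    have h1 : (v : W.H X) * W.cl X D ∈ Cl W X 3 := Cl_mul v.2 (cl_mem_Cl hD)
    rw [LinearMap.mem_ker]
    change B W X ((v : W.H X) * W.cl X D) a = 0
    rw [B_symm h1 a.2]
    exact ha _ h1)
  map_add' x y := by
    apply Submodule.linearMap_qext
    ext a
    change B W X (((x + y : Cl W X 2) : W.H X) * W.cl X D) a = B W X (x * W.cl X D) a +
      B W X (y * W.cl X D) a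
    rw [Submodule.coe_add, add_mul, map_add, LinearMap.add_apply]
  map_smul' q x := by
    apply Submodule.linearMap_qext
    ext a
    change B W X (((q • x : Cl W X 2) : W.H X) * W.cl X D) a = q • B W X (x * W.cl X D) a
    rw [Submodule.coe_smul, smul_mul_assoc, map_smul, LinearMap.smul_apply]

lemma cV_mk {X : 𝒱.Obj} {D : X.Cycles} (hD : X.IsCyc 1 D) (v : Cl W X 2) (a : Cl W X 1) :
    cV hD v ((numSub W X 1 3).mkQ a) = B W X v (W.cl X D * a) := by
  rw [← phi_apply]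
  rfl

/-- **The conjecture of Hodge type in terms of the index of the intersection form.** -/
theorem hod_iff {X : 𝒱.Obj} {D : X.Cycles} (hD : IsPolarization ops X D)
    (R : Submodule ℚ (Cl W X 2)) (hR : R ≤ numSub W X 2 2) :
    Hod (bV W X) (cV hD.cyc) R ↔ Idx (bV W X) R (finrank ℚ (Num W X 1 3) - 1) := by
  have hfin : Module.Finite ℚ (Num W X 1 3) := num_finite X 1 3 (by rw [hD.dim])
  have hξ : W.cl X D ∈ Cl W X 1 := cl_mem_Cl hD.cyc
  let w : Cl W X 1 → Cl W X 2 := fun a => ⟨W.cl X D * a, cl_D_mul hD.cyc a.2⟩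
  have hw : ∀ v a, bV W X v (w a) = cV hD.cyc v ((numSub W X 1 3).mkQ a) := fun v a => by
    rw [cV_mk]
    rfl
  obtain ⟨m, hm⟩ := exists_m (b := bV W X) (c := cV hD.cyc) (by
    intro x
    obtain ⟨a, rfl⟩ := (numSub W X 1 3).mkQ_surjective x
    exact ⟨w a, fun v => hw v a⟩)
  have key : ∀ a a', cV hD.cyc (m ((numSub W X 1 3).mkQ a)) ((numSub W X 1 3).mkQ a') =
      B W X (w a) (w a') := by
    intro a a'
    rw [← hw, bV_symm, hm, ← hw, bV_symm]
    rfl
  refine hod_iff_idx bV_symm (fun v hv x => hR hv x x.2) m hm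
    ((numSub W X 1 3).mkQ ⟨W.cl X D, hξ⟩) ?_ ?_
  · rw [key]
    have h1 := hD.pos
    rw [← B_cl (W := W) (ops.mul_mem hD.cyc hD.cyc) (ops.mul_mem hD.cyc hD.cyc) hD.dim.symm,
      W.cl_mul] at h1
    exact h1
  · intro x h1 h2
    obtain ⟨⟨_, z, hz, rfl⟩, rfl⟩ := (numSub W X 1 3).mkQ_surjective x
    rw [key] at h1 ⊢
    have h3 : inter ops (ops.mul D D) (ops.mul D z) = 0 := by
      rw [← B_cl (W := W) (ops.mul_mem hD.cyc hD.cyc) (ops.mul_mem hD.cyc hz) hD.dim.symm,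
        W.cl_mul, W.cl_mul]
      exact h1
    have h4 : ¬ NumTrivial ops X 1 z := by
      intro h5
      apply h2
      rw [Submodule.mkQ_apply, Submodule.Quotient.mk_eq_zero]
      exact (numTrivial_iff (q := 3) (by rw [hD.dim]) hz).1 h5
    have h6 := hD.neg z hz h3 h4
    rw [← B_cl (W := W) (ops.mul_mem hD.cyc hz) (ops.mul_mem hD.cyc hz) hD.dim.symm,
      W.cl_mul] at h6
    exact h6

lemma prim_iff {X : 𝒱.Obj} {D : X.Cycles} (hdim : X.dim = 4) (hD : X.IsCyc 1 D) {z : X.Cycles}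
    (hz : X.IsCyc 2 z) : (∀ x, cV (W := W) hD ⟨W.cl X z, cl_mem_Cl hz⟩ x = 0) ↔
      NumTrivial ops X 3 (ops.mul D z) := by
  rw [numTrivial_iff (W := W) (q := 1) (by rw [hdim]) (ops.mul_mem hD hz)]
  have key : ∀ a : Cl W X 1, B W X (W.cl X (ops.mul D z)) a =
      cV (W := W) hD ⟨W.cl X z, cl_mem_Cl hz⟩ ((numSub W X 1 3).mkQ a) := by
    intro a
    rw [cV_mk, ← B_assoc, W.cl_mul, Cl_comm (cl_mem_Cl hD) (cl_mem_Cl hz)]
  constructor
  · intro h a ha
    exact (key ⟨a, ha⟩).trans (h _)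
  · intro h x
    obtain ⟨a, rfl⟩ := (numSub W X 1 3).mkQ_surjective x
    exact (key a).symm.trans (h a a.2)

theorem hodgeNum_iff {X : 𝒱.Obj} {D : X.Cycles} (hD : IsPolarization ops X D) :
    HodgeNum ops X D ↔ Hod (bV W X) (cV hD.cyc) (numSub W X 2 2) := by
  constructor
  · rintro h ⟨_, z, hz, rfl⟩ h1 h2
    have h3 := h z hz ((prim_iff hD.dim hD.cyc hz).1 h1)
      (fun h4 => h2 ((numTrivial_iff (q := 2) (by rw [hD.dim]) hz).1 h4))
    rw [← B_cl (W := W) hz hz (by rw [hD.dim])] at h3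
    exact h3
  · intro h z hz h1 h2
    have h3 := h ⟨W.cl X z, cl_mem_Cl hz⟩ ((prim_iff hD.dim hD.cyc hz).2 h1)
      (fun h4 => h2 ((numTrivial_iff (q := 2) (by rw [hD.dim]) hz).2 h4))
    rw [← B_cl (W := W) hz hz (by rw [hD.dim])]
    exact h3

theorem hodgeHom_iff {X : 𝒱.Obj} {D : X.Cycles} (hD : IsPolarization ops X D)
    (hC : HomEqNumIn W X 3) :
    HodgeHom W X D ↔ Hod (bV W X) (cV hD.cyc) (⊥ : Submodule ℚ (Cl W X 2)) := by
  constructor
  · rintro h ⟨_, z, hz, rfl⟩ h1 h2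
    have h3 := h z hz (hC _ (ops.mul_mem hD.cyc hz) ((prim_iff hD.dim hD.cyc hz).1 h1))
      (fun h4 => h2 ((Submodule.mem_bot ℚ).2 (Subtype.ext h4)))
    rw [← B_cl (W := W) hz hz (by rw [hD.dim])] at h3
    exact h3
  · intro h z hz h1 h2
    have h4 : NumTrivial ops X 3 (ops.mul D z) := by
      rw [numTrivial_iff (W := W) (q := 1) (by rw [hD.dim]) (ops.mul_mem hD.cyc hz)]
      intro a _
      rw [h1, map_zero, LinearMap.zero_apply]
    have h3 := h ⟨W.cl X z, cl_mem_Cl hz⟩ ((prim_iff hD.dim hD.cyc hz).2 h4)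
      (fun h4 => h2 (congrArg Subtype.val ((Submodule.mem_bot ℚ).1 h4)))
    rw [← B_cl (W := W) hz hz (by rw [hD.dim])]
    exact h3

/-- **Independence of the polarization, numerical form.** -/
theorem hodgeNum_indep (W : WeilCohomology.{u, v} ops) {X : 𝒱.Obj} {D D' : X.Cycles}
    (hD : IsPolarization ops X D) (hD' : IsPolarization ops X D') :
    HodgeNum ops X D ↔ HodgeNum ops X D' := by
  rw [hodgeNum_iff (W := W) hD, hodgeNum_iff (W := W) hD', hod_iff hD _ le_rfl,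
    hod_iff hD' _ le_rfl]

/-- **Independence of the polarization, cohomological form.** -/
theorem hodgeHom_indep {X : 𝒱.Obj} {D D' : X.Cycles} (hC : HomEqNumIn W X 3)
    (hD : IsPolarization ops X D) (hD' : IsPolarization ops X D') :
    HodgeHom W X D ↔ HodgeHom W X D' := by
  rw [hodgeHom_iff hD hC, hodgeHom_iff hD' hC, hod_iff hD _ bot_le, hod_iff hD' _ bot_le]

end Pool.Agent.Q70.FF
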