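import Pool.Agent.Q70.FF.Blow2

/-!
# Projective line bundles and coverings
-/

set_option autoImplicit false
set_option linter.unusedSectionVars false

open CategoryTheory AlgebraicGeometry Module

universe u v

namespace Pool.Agent.Q70.FF

open Pool.Agent.H914 Pool.Agent.H914.VarClass Pool.Agent.H914.VarClass.Obj

variable {k : Type u} [Field k] {𝒱 : VarClass k} {ops : CycleOps 𝒱}
  {W : WeilCohomology.{u, v} ops}

/-- The projection formula. -/
lemma push_proj {X Y : 𝒱.Obj} (f : X ⟶ Y) (a : W.H X) (b : W.H Y) :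
    W.push f (a * W.map f b) = W.push f a * b := by
  rw [← sub_eq_zero]
  apply W.nondeg
  intro c
  rw [sub_mul, map_sub, W.tr_push, mul_assoc a, ← map_mul, mul_assoc, W.tr_push, sub_self]

/-- A form which is not positive has its isotropic vectors in the radical. -/
lemma isotropic_radical {U : Type*} [AddCommGroup U] [Module ℚ U] (b : U →ₗ[ℚ] U →ₗ[ℚ] ℚ)
    (hs : ∀ x y, b x y = b y x) (hle : ∀ x, b x x ≤ 0) {u : U} (hu : b u u = 0) (w : U) :
    b u w = 0 := by
  by_contra hne
  have h1 := hle (((1 - b w w) / (2 * b u w)) • u + w)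
  simp only [map_add, map_smul, LinearMap.add_apply, LinearMap.smul_apply, smul_eq_mul, hu,
    hs w u] at h1
  have h2 : (1 - b w w) / (2 * b u w) * ((1 - b w w) / (2 * b u w) * 0 + b u w) +
      ((1 - b w w) / (2 * b u w) * b u w + b w w) = 1 := by
    field_simp
    ring
  rw [h2] at h1
  linarith

section

variable {X T : 𝒱.Obj} {f : X ⟶ T} {h : X.Cycles} (hf : IsLineBundle W f h)

include hf

lemma line_num (hdim : X.dim = 4) (y : Cl W T 1) (hy : y ∈ numSub W T 1 2) :
    pullL f 1 y ∈ numSub W X 1 3 := by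
  have hT : T.dim = 3 := by have := hf.dim; omega
  intro c hc
  rw [pullL_coe, B_pull f y.2 hc (show 3 + T.dim = 2 + X.dim by omega)]
  exact hy _ (Cl_push f hc (by omega))

lemma line_pull_pull {p : ℕ} {a : W.H T} (b : W.H T) (_ha : a ∈ Cl W T p) :
    B W X (W.map f a) (W.map f b) = 0 := by
  have h1 : B W X (W.map f a) (W.map f b) = B W X 1 (W.map f (a * b)) := by
    rw [map_mul, ← B_assoc, one_mul]
  rw [h1, ← B_push, hf.push_one, map_zero, LinearMap.zero_apply]

lemma line_h_pull (b : W.H T) : B W X (W.cl X h) (W.map f b) = B W T 1 b := by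
  rw [← B_push, hf.push_h]

lemma line_rank (hdim : X.dim = 4) (hpt : ∃ y, T.IsCyc T.dim y ∧ T.V.degCycle y ≠ 0) :
    finrank ℚ (Num W T 1 2) + 1 ≤ finrank ℚ (Num W X 1 3) := by
  have hT : T.dim = 3 := by have := hf.dim; omega
  have hfin : Module.Finite ℚ (Num W X 1 3) := num_finite X 1 3 (by rw [hdim])
  have hfinT : Module.Finite ℚ (Num W T 1 2) := num_finite T 1 2 (by rw [hT])
  have hhm : W.cl X h ∈ Cl W X 1 := cl_mem_Cl hf.hcyc
  let A : Num W T 1 2 →ₗ[ℚ] Num W X 1 3 :=
    (numSub W T 1 2).mapQ (numSub W X 1 3) (pullL f 1) (fun x hx => line_num hf hdim x hx)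
  let eh : Num W X 1 3 := (numSub W X 1 3).mkQ ⟨W.cl X h, hhm⟩
  let Ψ : (Num W T 1 2 × ℚ) →ₗ[ℚ] Num W X 1 3 := A.coprod (LinearMap.toSpanSingleton ℚ _ eh)
  have hΨ : ∀ (x : Cl W T 1) (a : ℚ), Ψ ((numSub W T 1 2).mkQ x, a) =
      (numSub W X 1 3).mkQ (pullL f 1 x + a • ⟨W.cl X h, hhm⟩) := by
    intro x a
    rw [map_add, map_smul]
    rfl
  have hinj : Function.Injective Ψ := by
    rw [← LinearMap.ker_eq_bot, LinearMap.ker_eq_bot']
    rintro ⟨x, a⟩ h0
    obtain ⟨x, rfl⟩ := (numSub W T 1 2).mkQ_surjective x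
    rw [hΨ, Submodule.mkQ_apply, Submodule.Quotient.mk_eq_zero] at h0
    have ha : a = 0 := by
      obtain ⟨y, hy, hy0⟩ := hpt
      have hy3 : T.IsCyc 3 y := by rwa [hT] at hy
      have h2 := h0 (W.map f (W.cl T y)) (Cl_map f (cl_mem_Cl hy3))
      rw [Submodule.coe_add, Submodule.coe_smul, map_add, LinearMap.add_apply, map_smul,
        LinearMap.smul_apply, pullL_coe, line_pull_pull hf _ x.2] at h2
      have h3 : B W X (W.cl X h) (W.map f (W.cl T y)) = T.V.degCycle y := by
        rw [line_h_pull hf, B_apply, one_mul, W.tr_cl hy, del_rat]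
      have h4 : a • B W X (W.cl X h) (W.map f (W.cl T y)) = 0 := by
        rw [zero_add] at h2
        exact h2
      rw [h3, smul_eq_mul] at h4
      exact (mul_eq_zero.1 h4).resolve_right hy0
    have hx : x ∈ numSub W T 1 2 := by
      intro w hw
      have hc : W.cl X h * W.map f w ∈ Cl W X 3 := Cl_mul hhm (Cl_map f hw)
      have h2 := h0 (W.cl X h * W.map f w) hc
      rw [ha, zero_smul, add_zero, pullL_coe] at h2
      have h3 : B W X (W.map f x) (W.cl X h * W.map f w) = B W T x w := by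
        rw [← B_assoc, Cl_comm (Cl_map f x.2) hhm, B_assoc, ← map_mul, line_h_pull hf, ← B_assoc,
          one_mul]
      rwa [h3] at h2
    refine Prod.ext ?_ ha
    rw [Submodule.mkQ_apply]
    exact (Submodule.Quotient.mk_eq_zero _).2 hx
  have := LinearMap.finrank_le_finrank_of_injective hinj
  rwa [finrank_prod, finrank_self] at this

/-- The pairing with the classes `h · f^* y`. -/
noncomputable def sig (hf : IsLineBundle W f h) (hdim : X.dim = 4) :
    Cl W X 2 →ₗ[ℚ] Module.Dual ℚ (Num W T 1 2) where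
  toFun v := (numSub W T 1 2).liftQ
    ((B W X ((v : W.H X) * W.cl X h)) ∘ₗ (Cl W X 1).subtype ∘ₗ (pullL f 1)) (by
      intro y hy
      have hT : T.dim = 3 := by have := hf.dim; omega
      have h1 : (v : W.H X) * W.cl X h ∈ Cl W X 3 := Cl_mul v.2 (cl_mem_Cl hf.hcyc)
      rw [LinearMap.mem_ker]
      change B W X ((v : W.H X) * W.cl X h) (W.map f y) = 0
      rw [B_symm h1 (Cl_map f y.2)]
      exact line_num hf hdim y hy _ h1)
  map_add' x y := by
    apply Submodule.linearMap_qext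
    ext a
    change B W X (((x + y : Cl W X 2) : W.H X) * W.cl X h) (W.map f a) =
      B W X (x * W.cl X h) (W.map f a) + B W X (y * W.cl X h) (W.map f a)
    rw [Submodule.coe_add, add_mul, map_add, LinearMap.add_apply]
  map_smul' q x := by
    apply Submodule.linearMap_qext
    ext a
    change B W X (((q • x : Cl W X 2) : W.H X) * W.cl X h) (W.map f a) =
      q • B W X (x * W.cl X h) (W.map f a)
    rw [Submodule.coe_smul, smul_mul_assoc, map_smul, LinearMap.smul_apply]

lemma sig_mk (hdim : X.dim = 4) (v : Cl W X 2) (y : Cl W T 1) :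
    sig hf hdim v ((numSub W T 1 2).mkQ y) = B W X v (W.cl X h * W.map f y) := by
  rw [← B_assoc]
  rfl

lemma line_dec (_hdim : X.dim = 4) (hd : 2 + T.dim = 1 + X.dim) (u : Cl W X 2) :
    ∃ x : Cl W T 2, (u : W.H X) = W.map f x + W.cl X h * W.map f (pushL f hd u) := by
  obtain ⟨_, z, hz, rfl⟩ := u
  obtain ⟨x, hx, y, hy, h1⟩ := hf.gen2 z hz
  refine ⟨⟨W.cl T x, cl_mem_Cl hx⟩, ?_⟩
  have h2 : W.push f (W.cl X z) = W.cl T y := by
    have h3 : W.push f (W.map f (W.cl T x)) = 0 := by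
      have := push_proj f (1 : W.H X) (W.cl T x)
      rw [one_mul, hf.push_one, zero_mul] at this
      exact this
    rw [h1, map_add, h3, push_proj, hf.push_h, one_mul, zero_add]
  change W.cl X z = W.map f (W.cl T x) + W.cl X h * W.map f (W.push f (W.cl X z))
  rw [h2]
  exact h1

/-- **The numerical conjecture of Hodge type for projective line bundles over threefolds.** -/
theorem hodgeNum_line (hdim : X.dim = 4) (hpt : ∃ y, T.IsCyc T.dim y ∧ T.V.degCycle y ≠ 0)
    {D : X.Cycles} (hD : IsPolarization ops X D) : HodgeNum ops X D := by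
  classical
  have hT : T.dim = 3 := by have := hf.dim; omega
  have hd : 2 + T.dim = 1 + X.dim := by omega
  have hfinT : Module.Finite ℚ (Num W T 1 2) := num_finite T 1 2 (by rw [hT])
  rw [hodgeNum_iff (W := W) hD, hod_iff hD _ le_rfl]
  have hrk := line_rank hf hdim hpt
  intro r φ h1 h2
  let τ : Cl W X 2 →ₗ[ℚ] Num W T 1 2 := (numSub W T 1 2).mkQ ∘ₗ (pushL f hd)
  let τφ : (Fin r → ℚ) →ₗ[ℚ] Num W T 1 2 := τ ∘ₗ φ
  set U0 := LinearMap.ker τφ with hU0
  set Yr := LinearMap.range τφ with hYr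
  have hrn : finrank ℚ Yr + finrank ℚ U0 = r := by
    have h3 : finrank ℚ Yr + finrank ℚ U0 = finrank ℚ (Fin r → ℚ) :=
      τφ.finrank_range_add_finrank_ker
    rwa [finrank_pi, Fintype.card_fin] at h3
  -- the pairing formula
  have hpair : ∀ (v : Cl W X 2), pushL f hd v ∈ numSub W T 1 2 → ∀ u : Cl W X 2,
      bV W X v u = sig hf hdim v (τ u) := by
    intro v hv u
    obtain ⟨x, hx⟩ := line_dec hf hdim hd u
    have h3 : B W X v (W.map f x) = 0 := by
      rw [← B_push]
      exact hv _ x.2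
    have h4 : sig hf hdim v (τ u) = B W X v (W.cl X h * W.map f (pushL f hd u)) :=
      sig_mk hf hdim v (pushL f hd u)
    rw [h4]
    change B W X v u = _
    conv_lhs => rw [hx]
    rw [map_add, h3, zero_add]
  have hU : ∀ u0 ∈ U0, pushL f hd (φ u0) ∈ numSub W T 1 2 := by
    intro u0 hu0
    have h3 : (numSub W T 1 2).mkQ (pushL f hd (φ u0)) = 0 := hu0
    rwa [Submodule.mkQ_apply, Submodule.Quotient.mk_eq_zero] at h3
  let bφ : (Fin r → ℚ) →ₗ[ℚ] (Fin r → ℚ) →ₗ[ℚ] ℚ := (bV W X).compl₁₂ φ φ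
  have hann : ∀ u0 ∈ U0, ∀ u, sig hf hdim (φ u0) (τφ u) = 0 := by
    intro u0 hu0 u
    have h3 : bV W X (φ u0) (φ u) = sig hf hdim (φ u0) (τφ u) := hpair _ (hU u0 hu0) _
    have h4 : bV W X (φ u0) (φ u0) = 0 := by
      rw [hpair _ (hU u0 hu0)]
      have : τ (φ u0) = 0 := hu0
      rw [this, map_zero]
    rw [← h3]
    exact isotropic_radical bφ (fun x y => bV_symm _ _) h2 h4 u
  let σ0 : U0 →ₗ[ℚ] Yr.dualAnnihilator :=
    LinearMap.codRestrict _ ((sig hf hdim) ∘ₗ φ ∘ₗ U0.subtype) (by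
      intro u0
      rw [Submodule.mem_dualAnnihilator]
      rintro _ ⟨u, rfl⟩
      exact hann u0 u0.2 u)
  have hσ : Function.Injective σ0 := by
    rw [← LinearMap.ker_eq_bot, LinearMap.ker_eq_bot']
    intro u0 h3
    have h4 : sig hf hdim (φ u0) = 0 := congrArg Subtype.val h3
    apply Subtype.ext
    apply h1
    intro c hc
    have h5 := hpair _ (hU u0 u0.2) ⟨c, hc⟩
    rw [h4, LinearMap.zero_apply] at h5
    exact h5
  have h6 := LinearMap.finrank_le_finrank_of_injective hσ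
  have h7 := Subspace.finrank_add_finrank_dualAnnihilator_eq Yr
  omega

end

/-- **Descent along coverings.** -/
theorem hodgeNum_cover {Y X : 𝒱.Obj} {f : Y ⟶ X} {d : ℚ} (hf : IsCover W f d)
    {D : X.Cycles} (hX : X.dim = 4) (hD : X.IsCyc 1 D)
    (hD' : IsPolarization ops Y (ops.pull f D)) {D'' : Y.Cycles}
    (hD'' : IsPolarization ops Y D'') (hY : HodgeNum ops Y D'') : HodgeNum ops X D := by
  have h1 := (hodgeNum_indep W hD'' hD').1 hY
  have hYd := hD'.dim
  have hpp : ∀ a b : W.H X, B W Y (W.map f a) (W.map f b) = d * B W X a b := by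
    intro a b
    have h2 : B W Y (W.map f a) (W.map f b) = B W Y 1 (W.map f (a * b)) := by
      rw [map_mul, ← B_assoc, one_mul]
    rw [h2, ← B_push, hf.push_one, ← rat_smul, map_smul, LinearMap.smul_apply, smul_eq_mul,
      ← B_assoc, one_mul]
  intro z hz hz1 hz2
  have hfz := ops.pull_mem f hz
  have h3 : NumTrivial ops Y 3 (ops.mul (ops.pull f D) (ops.pull f z)) := by
    rw [numTrivial_iff (W := W) (q := 1) (by rw [hYd])
      (ops.mul_mem (ops.pull_mem f hD) (ops.pull_mem f hz))]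
    intro a ha
    rw [W.cl_mul, W.cl_pull, W.cl_pull, ← map_mul, ← W.cl_mul,
      B_pull f (cl_mem_Cl (ops.mul_mem hD hz)) ha (show 1 + X.dim = 1 + Y.dim by rw [hX, hYd])]
    exact (numTrivial_iff (q := 1) (by rw [hX]) (ops.mul_mem hD hz)).1 hz1 _
      (Cl_push f ha (by rw [hX, hYd]))
  have h4 : ¬ NumTrivial ops Y 2 (ops.pull f z) := by
    intro h5
    apply hz2
    rw [numTrivial_iff (W := W) (q := 2) (by rw [hX]) hz]
    intro a ha
    have h6 := (numTrivial_iff (W := W) (q := 2) (by rw [hYd]) hfz).1 h5 _ (Cl_map f ha)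
    rw [W.cl_pull, hpp] at h6
    exact (mul_eq_zero.1 h6).resolve_left hf.pos.ne'
  have h7 := h1 _ hfz h3 h4
  rw [← B_cl (W := W) hfz hfz (by rw [hYd]), W.cl_pull, hpp] at h7
  rw [← B_cl (W := W) hz hz (by rw [hX])]
  exact (mul_pos_iff_of_pos_left hf.pos).1 h7

end Pool.Agent.Q70.FF
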