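import Pool.Agent.Q70.FF.Line

/-!
# The conjecture of Hodge type for fourfolds: blow-ups, and the relation of the two forms
-/

set_option autoImplicit false
set_option linter.unusedSectionVars false

open CategoryTheory AlgebraicGeometry Module

universe u v

namespace Pool.Agent.Q70.FF

open Pool.Agent.H914 Pool.Agent.H914.VarClass Pool.Agent.H914.VarClass.Obj

variable {k : Type u} [Field k] {𝒱 : VarClass k} {ops : CycleOps 𝒱}
  {W : WeilCohomology.{u, v} ops}

/-- The Picard number is positive. -/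
lemma rank_pos {X : 𝒱.Obj} {D : X.Cycles} (hD : IsPolarization ops X D) :
    0 < finrank ℚ (Num W X 1 3) := by
  have hfin : Module.Finite ℚ (Num W X 1 3) := num_finite X 1 3 (by rw [hD.dim])
  have hξ : W.cl X D ∈ Cl W X 1 := cl_mem_Cl hD.cyc
  have hne : (numSub W X 1 3).mkQ ⟨W.cl X D, hξ⟩ ≠ 0 := by
    intro h0
    rw [Submodule.mkQ_apply, Submodule.Quotient.mk_eq_zero] at h0
    have h1 := h0 (W.cl X D * (W.cl X D * W.cl X D)) (Cl_mul hξ (Cl_mul hξ hξ))
    have h2 := hD.pos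
    rw [← B_cl (W := W) (ops.mul_mem hD.cyc hD.cyc) (ops.mul_mem hD.cyc hD.cyc) hD.dim.symm,
      W.cl_mul, B_assoc] at h2
    exact h2.ne' h1
  have : Nontrivial (Num W X 1 3) := ⟨_, _, hne⟩
  exact finrank_pos

section

variable {X X' Z E : 𝒱.Obj} {π : X' ⟶ X} {i : Z ⟶ X} {j : E ⟶ X'} {g : E ⟶ Z} {h : E.Cycles}
  (hB : IsBlowup W π i j g h)

include hB

/-- The index under blow-ups. -/
theorem idx_blowup (hdim : X.dim = 4) (hpt : ∃ y, Z.IsCyc Z.dim y ∧ Z.V.degCycle y ≠ 0)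
    (hA : Z.dim = 2 → ∃ A, IsSurfacePolarization ops Z A) (R : Submodule ℚ (Cl W X 2))
    (R' : Submodule ℚ (Cl W X' 2)) (hR' : R' ≤ numSub W X' 2 2)
    (hpR : ∀ v, pullL π 2 v ∈ R' ↔ v ∈ R) (hd : 1 + X'.dim = 2 + E.dim)
    (hs : Z.dim = 2 → ∀ y : Cl W Z 1, y ∈ numSub W Z 1 1 → excL j g hd y ∈ R') (n : ℕ) :
    Idx (bV W X) R n ↔ Idx (bV W X') R' (n + 1) := by
  have hc := hB.codim
  rcases (show Z.dim = 0 ∨ Z.dim = 1 ∨ Z.dim = 2 by omega) with hZ | hZ | hZ
  · exact idx_point hB hdim hZ R R' hR' hpR hd n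
  · exact idx_curve hB hdim hZ hpt R R' hR' hpR hd n
  · obtain ⟨A, hA⟩ := hA hZ
    exact idx_surface hB hdim hZ hA R R' hR' hpR hd (hs hZ) n

/-- **The numerical conjecture of Hodge type and blow-ups.** -/
theorem hodgeNum_blowup (hdim : X.dim = 4) (hpt : ∃ y, Z.IsCyc Z.dim y ∧ Z.V.degCycle y ≠ 0)
    (hA : Z.dim = 2 → ∃ A, IsSurfacePolarization ops Z A) {D : X.Cycles} {D' : X'.Cycles}
    (hD : IsPolarization ops X D) (hD' : IsPolarization ops X' D') :
    HodgeNum ops X D ↔ HodgeNum ops X' D' := by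
  have hdE := hB.dimE
  have hd : 1 + X'.dim = 2 + E.dim := by rw [hB.dim]; omega
  have hr := rank_pos (W := W) hD
  rw [hodgeNum_iff (W := W) hD, hodgeNum_iff (W := W) hD', hod_iff hD _ le_rfl,
    hod_iff hD' _ le_rfl, blow_rank hB hdim hpt, Nat.add_sub_cancel]
  have h1 := idx_blowup hB hdim hpt hA (numSub W X 2 2) (numSub W X' 2 2) le_rfl
    (blow_num_iff hB hdim) hd ?_ (finrank ℚ (Num W X 1 3) - 1)
  · rw [h1, Nat.sub_add_cancel hr]
  · intro hZ y hy c hc
    rw [excL_coe, B_push, B_pull g y.2 (Cl_map j hc) (show 2 + Z.dim = 1 + E.dim by omega)]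
    exact hy _ (Cl_push g (Cl_map j hc) (by omega))

/-- **The cohomological conjecture of Hodge type and blow-ups.** -/
theorem hodgeHom_blowup (hdim : X.dim = 4) (hpt : ∃ y, Z.IsCyc Z.dim y ∧ Z.V.degCycle y ≠ 0)
    (hA : Z.dim = 2 → ∃ A, IsSurfacePolarization ops Z A) {D : X.Cycles} {D' : X'.Cycles}
    (hD : IsPolarization ops X D) (hD' : IsPolarization ops X' D') (hX : HomEqNumIn W X 3)
    (hX' : HomEqNumIn W X' 3) (hZ : Z.dim = 2 → HomEqNumIn W Z 1) :
    HodgeHom W X D ↔ HodgeHom W X' D' := by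
  have hdE := hB.dimE
  have hd : 1 + X'.dim = 2 + E.dim := by rw [hB.dim]; omega
  have hr := rank_pos (W := W) hD
  rw [hodgeHom_iff hD hX, hodgeHom_iff hD' hX', hod_iff hD _ bot_le,
    hod_iff hD' _ bot_le, blow_rank hB hdim hpt, Nat.add_sub_cancel]
  have h1 := idx_blowup hB hdim hpt hA ⊥ ⊥ bot_le ?_ hd ?_ (finrank ℚ (Num W X 1 3) - 1)
  · rw [h1, Nat.sub_add_cancel hr]
  · intro v
    rw [Submodule.mem_bot, Submodule.mem_bot]
    constructor
    · intro h0
      exact Subtype.ext (blow_pull_inj hB _ (congrArg Subtype.val h0))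
    · intro h0
      rw [h0, map_zero]
  · rintro hZ2 ⟨_, z, hz, rfl⟩ hy
    have h2 : W.cl Z z = 0 := hZ hZ2 z hz ((numTrivial_iff (q := 1) (by rw [hZ2]) hz).2 hy)
    rw [Submodule.mem_bot]
    apply Subtype.ext
    rw [excL_coe]
    change W.push j (W.map g (W.cl Z z)) = 0
    rw [h2, map_zero, map_zero]

end

/-- **The relation of the two forms of the conjecture.** -/
theorem hodgeHom_iff_num {X : 𝒱.Obj} {D : X.Cycles} (hD : IsPolarization ops X D)
    (hC : HomEqNumIn W X 3) : HodgeHom W X D ↔ HodgeNum ops X D ∧ HomEqNumIn W X 2 := by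
  have hdim := hD.dim
  have key : ∀ z, X.IsCyc 2 z → NumTrivial ops X 2 z → NumTrivial ops X 3 (ops.mul D z) := by
    intro z hz hn
    rw [numTrivial_iff (W := W) (q := 1) (by rw [hdim]) (ops.mul_mem hD.cyc hz)]
    intro a ha
    rw [W.cl_mul, Cl_comm (cl_mem_Cl hD.cyc) (cl_mem_Cl hz), B_assoc]
    exact (numTrivial_iff (q := 2) (by rw [hdim]) hz).1 hn _ (Cl_mul (cl_mem_Cl hD.cyc) ha)
  have hnt : ∀ z, X.IsCyc 2 z → W.cl X z = 0 → NumTrivial ops X 2 z := by
    intro z hz h0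
    rw [numTrivial_iff (W := W) (q := 2) (by rw [hdim]) hz]
    intro a _
    rw [h0, map_zero, LinearMap.zero_apply]
  constructor
  · intro hH
    refine ⟨fun z hz h1 h2 => hH z hz (hC _ (ops.mul_mem hD.cyc hz) h1)
      (fun h0 => h2 (hnt z hz h0)), fun z hz hn => ?_⟩
    by_contra hne
    have h3 := hH z hz (hC _ (ops.mul_mem hD.cyc hz) (key z hz hn)) hne
    have h4 : inter ops z z = 0 := hn 2 z (by rw [hdim]) hz
    linarith
  · rintro ⟨hN, hE⟩ z hz h1 h2
    have h3 : NumTrivial ops X 3 (ops.mul D z) := by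
      rw [numTrivial_iff (W := W) (q := 1) (by rw [hdim]) (ops.mul_mem hD.cyc hz)]
      intro a _
      rw [h1, map_zero, LinearMap.zero_apply]
    exact hN z hz h3 (fun hn => h2 (hE z hz hn))

/-- Numerical and homological equivalence on projective line bundles over threefolds. -/
theorem line_homEqNum {X T : 𝒱.Obj} {f : X ⟶ T} {h : X.Cycles} (hf : IsLineBundle W f h)
    (hdim : X.dim = 4) (h1 : HomEqNumIn W T 1) (h2 : HomEqNumIn W T 2) : HomEqNumIn W X 2 := by
  have hT : T.dim = 3 := by have := hf.dim; omega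
  intro z hz hn
  obtain ⟨x, hx, y, hy, h3⟩ := hf.gen2 z hz
  have h4 := (numTrivial_iff (W := W) (q := 2) (by rw [hdim]) hz).1 hn
  have hpy : W.push f (W.cl X z) = W.cl T y := by
    have h5 : W.push f (W.map f (W.cl T x)) = 0 := by
      have := push_proj f (1 : W.H X) (W.cl T x)
      rw [one_mul, hf.push_one, zero_mul] at this
      exact this
    rw [h3, map_add, h5, push_proj, hf.push_h, one_mul, zero_add]
  have hy0 : W.cl T y = 0 := by
    apply h1 y hy
    rw [numTrivial_iff (W := W) (q := 2) (by rw [hT]) hy]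
    intro a ha
    rw [← hpy, B_push]
    exact h4 _ (Cl_map f ha)
  rw [hy0, map_zero, mul_zero, add_zero] at h3
  have hx0 : W.cl T x = 0 := by
    apply h2 x hx
    rw [numTrivial_iff (W := W) (q := 1) (by rw [hT]) hx]
    intro a ha
    have h5 := h4 _ (Cl_mul (cl_mem_Cl hf.hcyc) (Cl_map f ha))
    rw [h3, ← B_assoc, Cl_comm (Cl_map f (cl_mem_Cl hx)) (cl_mem_Cl hf.hcyc), B_assoc, ← map_mul,
      line_h_pull hf, ← B_assoc, one_mul] at h5
    exact h5
  rw [h3, hx0, map_zero]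

end Pool.Agent.Q70.FF
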