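import Pool.Agent.Q70.FF.Defs

/-!
# Blow-ups, projective line bundles, fibrations, coverings: the definitions of the final statement
-/

set_option autoImplicit false

open CategoryTheory AlgebraicGeometry

universe u v

namespace Pool.Agent.Q70.FF

open Pool.Agent.H914 Pool.Agent.H914.VarClass Pool.Agent.H914.VarClass.Obj

variable {k : Type u} [Field k] {𝒱 : VarClass k} {ops : CycleOps 𝒱}
  (W : WeilCohomology.{u, v} ops)

/-- The pull-back `f^* a` in cohomology. -/
noncomputable def up {X Y : 𝒱.Obj} (f : X ⟶ Y) (a : W.H Y) : W.H X := W.map f a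

/-- The push-forward `f_* a` in cohomology. -/
noncomputable def down {X Y : 𝒱.Obj} (f : X ⟶ Y) (a : W.H X) : W.H Y := W.push f a

/-- The class of the cycle `z`. -/
noncomputable def kl {X : 𝒱.Obj} (z : X.Cycles) : W.H X := W.cl X z

/-- The class of `X`. -/
noncomputable def oneH (X : 𝒱.Obj) : W.H X := 1

/-- The zero class. -/
noncomputable def zeroH (X : 𝒱.Obj) : W.H X := 0

/-- The product of two classes. -/
noncomputable def mulH {X : 𝒱.Obj} (a b : W.H X) : W.H X := a * b

/-- The sum of two classes. -/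
noncomputable def addH {X : 𝒱.Obj} (a b : W.H X) : W.H X := a + b

/-- The opposite class. -/
noncomputable def negH {X : 𝒱.Obj} (a : W.H X) : W.H X := -a

/-- The rational multiple `q a` of a class. -/
noncomputable def ratH {X : 𝒱.Obj} (q : ℚ) (a : W.H X) : W.H X := (q : W.K) • a

/-- The power of a class. -/
noncomputable def powH {X : 𝒱.Obj} (a : W.H X) (s : ℕ) : W.H X := a ^ s

/-- Every algebraic class of codimension one on the blow-up `π : X' → X` with exceptional divisor
`j : E → X'` is the sum of the pull-back of an algebraic class and a multiple of the class of `E`. -/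
def Gen1 {X X' E : 𝒱.Obj} (π : X' ⟶ X) (j : E ⟶ X') : Prop :=
  ∀ z, X'.IsCyc 1 z → ∃ x, X.IsCyc 1 x ∧ ∃ a : ℚ,
    kl W z = addH W (up W π (kl W x)) (ratH W a (down W j (oneH W E)))

/-- Every algebraic class of codimension two on the blow-up is of the form
`π^* x + j_* g^* y + a j_* h`, with `a = 0` if the centre has codimension two. -/
def Gen2 {X X' Z E : 𝒱.Obj} (π : X' ⟶ X) (j : E ⟶ X') (g : E ⟶ Z) (h : E.Cycles) : Prop :=
  ∀ z, X'.IsCyc 2 z → ∃ x, X.IsCyc 2 x ∧ ∃ y, Z.IsCyc 1 y ∧ ∃ a : ℚ,
    (Z.dim + 2 = X.dim → a = 0) ∧ kl W z =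
      addH W (addH W (up W π (kl W x)) (down W j (up W g (kl W y))))
        (ratH W a (down W j (kl W h)))

/-- The push-forwards of the powers of the tautological divisor `h` from the projective bundle
`g : E → Z` of dimension one less than `n` : `g_* h ^ s` is the fundamental class if
`s + 1 + dim Z = n`, and zero if `s + 1 + dim Z < n`. -/
def Segre {Z E : 𝒱.Obj} (g : E ⟶ Z) (h : E.Cycles) (n : ℕ) : Prop :=
  ∀ s : ℕ, (s + 1 + Z.dim = n → down W g (powH W (kl W h) s) = oneH W Z) ∧
    (s + 1 + Z.dim < n → down W g (powH W (kl W h) s) = zeroH W Z)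

/-- The properties of the blow-up `π : X' → X` of a variety `X` in a smooth subvariety
`i : Z → X` of codimension at least two, with exceptional divisor `j : E → X'`, projection
`g : E → Z` and tautological divisor `h` on the projective bundle `E` (the opposite of the normal
bundle of `E`): `π_* 1 = 1`, the self-intersection formula `j^* j_* a = - h a`, the formulas
`Segre` for `g_* h ^ s`, and the generation of the algebraic classes of codimension one and two on
`X'` by those of `X` and of `Z`. -/
structure Blowup {X X' Z E : 𝒱.Obj} (π : X' ⟶ X) (i : Z ⟶ X) (j : E ⟶ X') (g : E ⟶ Z)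
    (h : E.Cycles) : Prop where
  comm : j ≫ π = g ≫ i
  dim : X'.dim = X.dim
  dimE : E.dim + 1 = X.dim
  codim : Z.dim + 2 ≤ X.dim
  hcyc : E.IsCyc 1 h
  birat : down W π (oneH W X') = oneH W X
  self : ∀ a, up W j (down W j a) = negH W (mulH W (kl W h) a)
  segre : Segre W g h X.dim
  gen1 : Gen1 W π j
  gen2 : Gen2 W π j g h

variable {W} in
lemma Blowup.props {X X' Z E : 𝒱.Obj} {π : X' ⟶ X} {i : Z ⟶ X} {j : E ⟶ X'} {g : E ⟶ Z}
    {h : E.Cycles} (hB : Blowup W π i j g h) : IsBlowup W π i j g h where
  comm := hB.comm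
  dim := hB.dim
  dimE := hB.dimE
  codim := hB.codim
  hcyc := hB.hcyc
  birat := hB.birat
  self := hB.self
  bundle := fun s hs => by
    rcases hs.eq_or_lt with h1 | h1
    · rw [if_pos h1]
      exact (hB.segre s).1 h1
    · rw [if_neg h1.ne]
      exact (hB.segre s).2 h1
  gen1 := hB.gen1
  gen2 := hB.gen2

/-- Every algebraic class of codimension one on the projective line bundle `f : X → B` is of the
form `f^* x + a h`. -/
def LineGen1 {X B : 𝒱.Obj} (f : X ⟶ B) (h : X.Cycles) : Prop :=
  ∀ z, X.IsCyc 1 z → ∃ x, B.IsCyc 1 x ∧ ∃ a : ℚ,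
    kl W z = addH W (up W f (kl W x)) (ratH W a (kl W h))

/-- Every algebraic class of codimension two on the projective line bundle `f : X → B` is of the
form `f^* x + h f^* y`. -/
def LineGen2 {X B : 𝒱.Obj} (f : X ⟶ B) (h : X.Cycles) : Prop :=
  ∀ z, X.IsCyc 2 z → ∃ x, B.IsCyc 2 x ∧ ∃ y, B.IsCyc 1 y ∧
    kl W z = addH W (up W f (kl W x)) (mulH W (kl W h) (up W f (kl W y)))

/-- The properties of a projective line bundle `f : X → B`: a divisor `h` with `f_* h = 1`,
`f_* 1 = 0`, and the generation of the algebraic classes of codimension one and two on `X` by those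
of `B` and `h`. -/
structure LineBundle {X B : 𝒱.Obj} (f : X ⟶ B) (h : X.Cycles) : Prop where
  dim : X.dim = B.dim + 1
  hcyc : X.IsCyc 1 h
  push_one : down W f (oneH W X) = zeroH W B
  push_h : down W f (kl W h) = oneH W B
  gen1 : LineGen1 W f h
  gen2 : LineGen2 W f h

variable {W} in
lemma LineBundle.props {X B : 𝒱.Obj} {f : X ⟶ B} {h : X.Cycles} (hf : LineBundle W f h) :
    IsLineBundle W f h where
  dim := hf.dim
  hcyc := hf.hcyc
  push_one := hf.push_one
  push_h := hf.push_h
  gen1 := hf.gen1
  gen2 := hf.gen2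

/-- A fibration `f : X → T` in curves: `dim X = dim T + 1`, `f_* 1 = 0`, and some divisor has
nonzero degree on the fibres. -/
structure Fibration {X T : 𝒱.Obj} (f : X ⟶ T) : Prop where
  dim : X.dim = T.dim + 1
  push_one : down W f (oneH W X) = zeroH W T
  fibre : ∃ (h : X.Cycles) (a : ℚ), X.IsCyc 1 h ∧ a ≠ 0 ∧
    down W f (kl W h) = ratH W a (oneH W T)

variable {W} in
lemma Fibration.props {X T : 𝒱.Obj} {f : X ⟶ T} (hf : Fibration W f) : IsFibration W f where
  dim := hf.dim
  push_one := hf.push_one
  fibre := hf.fibre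

/-- A surjective morphism of degree `d` of varieties of the same dimension. -/
structure Cover {Y X : 𝒱.Obj} (f : Y ⟶ X) (d : ℚ) : Prop where
  dim : Y.dim = X.dim
  pos : 0 < d
  push_one : down W f (oneH W Y) = ratH W d (oneH W X)

variable {W} in
lemma Cover.props {Y X : 𝒱.Obj} {f : Y ⟶ X} {d : ℚ} (hf : Cover W f d) : IsCover W f d where
  dim := hf.dim
  pos := hf.pos
  push_one := hf.push_one

end Pool.Agent.Q70.FF
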